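import Mathlib

/-!
Derivation trees of OS schemes, powers of words and segments of infinite words.
-/

namespace Pool.Agent.P.MP_676b89_lc

variable {σ : Type*}

/-- Parse forests: `DL P u w` says that `u` derives `w`. -/
inductive DL (P : Set (σ × List σ)) : List σ → List σ → Prop
  | nil : DL P [] []
  | keep (a : σ) (u w : List σ) : DL P u w → DL P (a :: u) (a :: w)
  | exp (a : σ) (v u w1 w2 : List σ) :
      (a, v) ∈ P → DL P v w1 → DL P u w2 → DL P (a :: u) (w1 ++ w2)

variable {P : Set (σ × List σ)}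

theorem DL.refl (u : List σ) : DL P u u := by
  induction u with
  | nil => exact DL.nil
  | cons a u ih => exact DL.keep a u u ih

theorem DL.append {u1 w1 u2 w2 : List σ} (h1 : DL P u1 w1) (h2 : DL P u2 w2) :
    DL P (u1 ++ u2) (w1 ++ w2) := by
  induction h1 with
  | nil => simpa using h2
  | keep a u w _ ih => exact DL.keep a _ _ ih
  | exp a v u x1 x2 hp hv _ _ ih2 =>
    have := DL.exp a v (u ++ u2) x1 (x2 ++ w2) hp hv ih2
    simpa [List.append_assoc] using this

theorem DL.nil_left {w : List σ} (h : DL P [] w) : w = [] := by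
  cases h; rfl

theorem DL.split {u1 u2 w : List σ} (h : DL P (u1 ++ u2) w) :
    ∃ w1 w2, w = w1 ++ w2 ∧ DL P u1 w1 ∧ DL P u2 w2 := by
  induction u1 generalizing w with
  | nil => exact ⟨[], w, rfl, DL.nil, h⟩
  | cons a u1 ih =>
    rw [List.cons_append] at h
    cases h with
    | keep _ _ w' h' =>
      obtain ⟨x1, x2, rfl, h1, h2⟩ := ih h'
      exact ⟨a :: x1, x2, rfl, DL.keep a _ _ h1, h2⟩
    | exp _ v _ y1 y2 hp hv h' =>
      obtain ⟨x1, x2, rfl, h1, h2⟩ := ih h'
      exact ⟨y1 ++ x1, x2, by simp, DL.exp a v _ _ _ hp hv h1, h2⟩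

theorem DL.split_cons {a : σ} {u w : List σ} (h : DL P (a :: u) w) :
    ∃ w1 w2, w = w1 ++ w2 ∧ DL P [a] w1 ∧ DL P u w2 :=
  DL.split (u1 := [a]) h

theorem DL.split3 {u1 u2 u3 w : List σ} (h : DL P (u1 ++ u2 ++ u3) w) :
    ∃ w1 w2 w3, w = w1 ++ w2 ++ w3 ∧ DL P u1 w1 ∧ DL P u2 w2 ∧ DL P u3 w3 := by
  obtain ⟨x, w3, rfl, h12, h3⟩ := h.split
  obtain ⟨w1, w2, rfl, h1, h2⟩ := h12.split
  exact ⟨w1, w2, w3, rfl, h1, h2, h3⟩

theorem DL.trans {u w t : List σ} (h1 : DL P u w) (h2 : DL P w t) : DL P u t := by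
  induction h1 generalizing t with
  | nil => exact h2
  | keep a u w _ ih =>
    cases h2 with
    | keep _ _ t' h' => exact DL.keep a _ _ (ih h')
    | exp _ v _ y1 y2 hp hv h' => exact DL.exp a v _ _ _ hp hv (ih h')
  | exp a v u x1 x2 hp _ _ ih1 ih2 =>
    obtain ⟨t1, t2, rfl, g1, g2⟩ := h2.split
    exact DL.exp a v _ _ _ hp (ih1 g1) (ih2 g2)

theorem DL.cons {a : σ} {x u w : List σ} (h1 : DL P [a] x) (h2 : DL P u w) :
    DL P (a :: u) (x ++ w) := h1.append h2

theorem DL.ctx {u w : List σ} (s t : List σ) (h : DL P u w) :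
    DL P (s ++ u ++ t) (s ++ w ++ t) :=
  ((DL.refl s).append h).append (DL.refl t)

theorem DL.of_rule {a : σ} {v w : List σ} (hp : (a, v) ∈ P) (h : DL P v w) : DL P [a] w := by
  have := DL.exp a v [] w [] hp h DL.nil
  simpa using this

/-- Every right-hand side is nonempty. -/
def Prop' (P : Set (σ × List σ)) : Prop := ∀ r ∈ P, r.2 ≠ []

theorem DL.length_le (hP : Prop' P) {u w : List σ} (h : DL P u w) : u.length ≤ w.length := by
  induction h with
  | nil => simp
  | keep a u w _ ih => simpa using ih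
  | exp a v u x1 x2 hp _ _ ih1 ih2 =>
    have : 0 < v.length := List.length_pos_iff.mpr (hP _ hp)
    simp only [List.length_cons, List.length_append]
    omega

theorem DL.ne_nil (hP : Prop' P) {u w : List σ} (h : DL P u w) (hu : u ≠ []) : w ≠ [] := by
  have h1 := h.length_le hP
  have h2 : 0 < u.length := List.length_pos_iff.mpr hu
  exact List.length_pos_iff.mp (by omega)

/-- The `k`-th power of a word. -/
def pw (u : List σ) (k : ℕ) : List σ := (List.replicate k u).flatten

@[simp] theorem pw_zero (u : List σ) : pw u 0 = [] := rfl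

theorem pw_succ (u : List σ) (k : ℕ) : pw u (k + 1) = u ++ pw u k := by
  simp [pw, List.replicate_succ]

theorem pw_add (u : List σ) (k l : ℕ) : pw u (k + l) = pw u k ++ pw u l := by
  unfold pw
  rw [List.replicate_add, List.flatten_append]

theorem pw_one (u : List σ) : pw u 1 = u := by simp [pw]

theorem pw_succ' (u : List σ) (k : ℕ) : pw u (k + 1) = pw u k ++ u := by
  rw [pw_add, pw_one]

theorem length_pw (u : List σ) (k : ℕ) : (pw u k).length = k * u.length := by
  simp [pw]

theorem pw_mul (u : List σ) (j i : ℕ) : pw (pw u j) i = pw u (i * j) := by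
  induction i with
  | zero => simp
  | succ i ih => rw [pw_succ', ih, Nat.succ_mul, pw_add]

theorem pw_rot (a b : List σ) (k : ℕ) : a ++ pw (b ++ a) k = pw (a ++ b) k ++ a := by
  induction k with
  | zero => simp
  | succ k ih => rw [pw_succ, pw_succ, List.append_assoc, List.append_assoc, ih]; simp

theorem DL.pw {u w : List σ} (h : DL P u w) (k : ℕ) : DL P (pw u k) (pw w k) := by
  induction k with
  | zero => exact DL.nil
  | succ k ih => rw [pw_succ, pw_succ]; exact h.append ih

/-- The segment `y p, …, y (q-1)` of an infinite word. -/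
def seg (y : ℕ → σ) (p q : ℕ) : List σ := (List.range' p (q - p)).map y

@[simp] theorem length_seg (y : ℕ → σ) (p q : ℕ) : (seg y p q).length = q - p := by
  simp [seg]

theorem seg_of_le (y : ℕ → σ) {p q : ℕ} (h : q ≤ p) : seg y p q = [] := by
  simp [seg, Nat.sub_eq_zero_of_le h]

@[simp] theorem seg_self (y : ℕ → σ) (p : ℕ) : seg y p p = [] := seg_of_le y le_rfl

theorem seg_append (y : ℕ → σ) {p q r : ℕ} (h1 : p ≤ q) (h2 : q ≤ r) :
    seg y p q ++ seg y q r = seg y p r := by
  obtain ⟨a, rfl⟩ := Nat.exists_eq_add_of_le h1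
  obtain ⟨b, rfl⟩ := Nat.exists_eq_add_of_le h2
  unfold seg
  rw [← List.map_append]
  congr 1
  have e1 : p + a - p = a := by omega
  have e2 : p + a + b - (p + a) = b := by omega
  have e3 : p + a + b - p = a + b := by omega
  rw [e1, e2, e3]
  simp

theorem seg_one (y : ℕ → σ) (p : ℕ) : seg y p (p + 1) = [y p] := by
  simp [seg]

theorem seg_cons (y : ℕ → σ) {p q : ℕ} (h : p < q) : seg y p q = y p :: seg y (p + 1) q := by
  rw [← seg_append y (Nat.le_succ p) h, seg_one]; rfl

theorem seg_snoc (y : ℕ → σ) {p q : ℕ} (h : p ≤ q) : seg y p (q + 1) = seg y p q ++ [y q] := by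
  rw [← seg_append y h (Nat.le_succ q), seg_one]

theorem seg_eq_append (y : ℕ → σ) {p q : ℕ} (h : p ≤ q) {A B : List σ}
    (e : seg y p q = A ++ B) :
    p + A.length ≤ q ∧ A = seg y p (p + A.length) ∧ B = seg y (p + A.length) q := by
  have hl : q - p = A.length + B.length := by
    have := congrArg List.length e
    simpa using this
  have h1 : p + A.length ≤ q := by omega
  rw [← seg_append y (Nat.le_add_right p A.length) h1] at e
  have := List.append_inj e (by simp)
  exact ⟨h1, this.1.symm, this.2.symm⟩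

theorem seg_congr {y y' : ℕ → σ} {p q d : ℕ} (h : ∀ i, p ≤ i → i < q → y' i = y (i + d)) :
    seg y' p q = seg y (p + d) (q + d) := by
  unfold seg
  have e : q + d - (p + d) = q - p := by omega
  rw [e]
  apply List.ext_getElem
  · simp
  · intro i h1 h2
    simp only [List.length_map, List.length_range'] at h1
    simp only [List.getElem_map, List.getElem_range', one_mul]
    rw [h (p + i) (by omega) (by omega)]
    congr 1
    omega

theorem seg_pointwise {y y' : ℕ → σ} {p p' t : ℕ} (h : seg y p (p + t) = seg y' p' (p' + t))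
    {r : ℕ} (hr : r < t) : y (p + r) = y' (p' + r) := by
  have h1 : r < (seg y p (p + t)).length := by simp [hr]
  have h2 : r < (seg y' p' (p' + t)).length := by simp [hr]
  have e : (seg y p (p + t))[r] = (seg y' p' (p' + t))[r] := by simp only [h]
  simpa [seg] using e

/-- No factor `c z` with `z` nonempty and `c ⇒* c z`. -/
def LeftFree (P : Set (σ × List σ)) (w : List σ) : Prop :=
  ∀ s c z t, w = s ++ c :: z ++ t → z ≠ [] → ¬ DL P [c] (c :: z)

/-- No factor `z c` with `z` nonempty and `c ⇒* z c`. -/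
def RightFree (P : Set (σ × List σ)) (w : List σ) : Prop :=
  ∀ s z c t, w = s ++ z ++ c :: t → z ≠ [] → ¬ DL P [c] (z ++ [c])

/-- No factor `c x c` with `c ⇒* c x c`. -/
def DualFree (P : Set (σ × List σ)) (w : List σ) : Prop :=
  ∀ s c x t, w = s ++ c :: x ++ c :: t → ¬ DL P [c] (c :: x ++ [c])

theorem LeftFree.dualFree {w : List σ} (h : LeftFree P w) : DualFree P w := by
  intro s c x t e hd
  exact h s c (x ++ [c]) t (by simp [e]) (by simp) (by simpa using hd)

theorem LeftFree.factor {s w t : List σ} (h : LeftFree P (s ++ w ++ t)) : LeftFree P w := by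
  intro s' c z t' e
  exact h (s ++ s') c z (t' ++ t) (by simp [e])

theorem RightFree.factor {s w t : List σ} (h : RightFree P (s ++ w ++ t)) : RightFree P w := by
  intro s' z c t' e
  exact h (s ++ s') z c (t' ++ t) (by simp [e])

theorem DualFree.factor {s w t : List σ} (h : DualFree P (s ++ w ++ t)) : DualFree P w := by
  intro s' c z t' e
  exact h (s ++ s') c z (t' ++ t) (by simp [e])

end Pool.Agent.P.MP_676b89_lc
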