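import Pool.Agent.P.MP_676b89_lc.NR

/-!
Long chains of linked occurrences of a window in a non-reducible word.
-/

namespace Pool.Agent.P.MP_676b89_lc

variable {σ : Type*} {P : Set (σ × List σ)}

/-- `A` derives `W` with properly expanding letters at gaps at most `M`, the last one included. -/
def Til (P : Set (σ × List σ)) (M : ℕ) (A W : List σ) : Prop :=
  DL P A W ∧ ∀ x m x', A = x ++ m ++ x' → (M < m.length ∨ (x' = [] ∧ m ≠ [])) →
    ∃ X K X', W = X ++ K ++ X' ∧ DL P x X ∧ DL P m K ∧ DL P x' X' ∧ m.length < K.length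

theorem Til.nil (M : ℕ) : Til P M [] [] := by
  refine ⟨DL.nil, fun x m x' e h => ?_⟩
  have : m = [] := by
    have := congrArg List.length e
    simp only [List.length_nil, List.length_append] at this
    exact List.eq_nil_of_length_eq_zero (by omega)
  subst this
  simp at h

theorem Til.snoc (hP : Prop' P) {M : ℕ} {A W L H : List σ} {g : σ} (h : Til P M A W)
    (hL : L.length ≤ M) (hg : DL P [g] H) (hH : 2 ≤ H.length) :
    Til P M (A ++ L ++ [g]) (W ++ L ++ H) := by
  refine ⟨(h.1.append (DL.refl L)).append hg, fun x m x' e hm => ?_⟩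
  rcases List.eq_nil_or_concat x' with rfl | ⟨x0, b, rfl⟩
  · have hne : m ≠ [] := by
      rintro rfl
      simp at hm
    obtain ⟨m0, b, rfl⟩ : ∃ m0 b, m = m0 ++ [b] := by
      rcases List.eq_nil_or_concat m with rfl | ⟨m0, b, rfl⟩
      · exact absurd rfl hne
      · exact ⟨m0, b, by simp⟩
    rw [List.append_nil, ← List.append_assoc] at e
    obtain ⟨e1, e2⟩ := List.append_inj' e rfl
    have d := h.1.append (DL.refl L)
    rw [e1] at d
    obtain ⟨X, K, e3, d1, d2⟩ := d.split
    have := d2.length_le hP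
    refine ⟨X, K ++ H, [], by rw [e3]; simp, d1, d2.append (e2 ▸ hg), DL.nil, ?_⟩
    simp only [List.length_append, List.length_singleton]
    omega
  · replace hm : M < m.length := by
      rcases hm with hm | hm
      · exact hm
      · simp at hm
    rw [List.concat_eq_append, ← List.append_assoc] at e
    obtain ⟨e1, e2⟩ := List.append_inj' e rfl
    rw [List.concat_eq_append, ← e2]
    rw [List.append_eq_append_iff] at e1
    rcases e1 with ⟨a, e1, rfl⟩ | ⟨a, e1, rfl⟩
    · rw [List.append_eq_append_iff] at e1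
      simp only [List.length_append] at hL
      rcases e1 with ⟨c, e1, rfl⟩ | ⟨c, rfl, rfl⟩
      · have hc : c ≠ [] := by
          rintro rfl
          simp at hm
          omega
        obtain ⟨X, K, X', rfl, d1, d2, d3, d4⟩ := h.2 x c [] (by simp [e1]) (Or.inr ⟨rfl, hc⟩)
        rw [d3.nil_left]
        refine ⟨X, K ++ a, x0 ++ H, by simp, d1, d2.append (DL.refl a), (DL.refl x0).append hg, ?_⟩
        simp only [List.length_append]
        omega
      · simp only [List.length_append] at hL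
        omega
    · obtain ⟨X, K, X', rfl, d1, d2, d3, d4⟩ := h.2 x m a e1 (Or.inl hm)
      exact ⟨X, K, X' ++ L ++ H, by simp, d1, d2, (d3.append (DL.refl L)).append hg, d4⟩

theorem dual_mid {A X B : List σ} {g : σ} (h1 : DualFree P (A ++ X ++ B)) (hg : DL P [g] X)
    (h2 : DualFree P (A ++ [g])) (h3 : ¬ DualFree P (A ++ g :: B)) :
    ∃ v t, B = v ++ g :: t ∧ DL P [g] (g :: v ++ [g]) := by
  unfold DualFree at h3
  push Not at h3
  obtain ⟨s, c, x, t, e, hd⟩ := h3
  rw [List.append_eq_append_iff] at e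
  rcases e with ⟨a, e1, e2⟩ | ⟨a, rfl, e2⟩
  · cases a with
    | nil =>
      simp only [List.nil_append, List.cons.injEq, List.append_nil] at e1 e2
      obtain ⟨rfl, rfl⟩ := e2
      exact absurd hd (h2 s g x [] (by simp [← e1]))
    | cons b a =>
      simp only [List.cons_append, List.cons.injEq] at e2
      obtain ⟨rfl, rfl⟩ := e2
      rw [List.append_eq_append_iff] at e1
      rcases e1 with ⟨b, rfl, e1⟩ | ⟨b, rfl, e1⟩
      · cases b with
        | nil =>
          simp only [List.nil_append, List.cons.injEq] at e1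
          obtain ⟨rfl, rfl⟩ := e1
          exact ⟨x, t, rfl, hd⟩
        | cons d b =>
          simp only [List.cons_append, List.cons.injEq] at e1
          obtain ⟨rfl, rfl⟩ := e1
          refine absurd (hd.trans ?_) (h1 s c (b ++ X ++ a) t (by simp))
          simpa using hg.ctx (c :: b) (a ++ [c])
      · cases b with
        | nil =>
          simp only [List.nil_append, List.cons.injEq] at e1
          obtain ⟨rfl, rfl⟩ := e1
          exact ⟨a, t, rfl, hd⟩
        | cons d b =>
          simp only [List.cons_append, List.cons.injEq] at e1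
          obtain ⟨rfl, rfl⟩ := e1
          exact absurd hd (h1 (A ++ X ++ b) c x t (by simp))
  · cases a with
    | nil =>
      simp only [List.nil_append, List.cons.injEq] at e2
      obtain ⟨rfl, rfl⟩ := e2
      exact absurd hd (h2 s c x [] (by simp))
    | cons b a =>
      simp only [List.cons_append, List.cons.injEq] at e2
      obtain ⟨rfl, rfl⟩ := e2
      exact absurd hd (h2 s c x (a ++ [g]) (by simp))

theorem dualFree_snoc {A X : List σ} {g : σ} (hP : Prop' P) (h : LeftFree P (A ++ X))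
    (hg : DL P [g] X) : DualFree P (A ++ [g]) := by
  intro s c x t e hd
  rcases List.eq_nil_or_concat t with rfl | ⟨t0, b, rfl⟩
  · obtain ⟨rfl, e2⟩ := List.append_inj' e rfl
    simp only [List.cons.injEq, and_true] at e2
    subst e2
    refine h s g (x ++ X) [] (by simp) (by simp [hg.ne_nil hP (by simp)]) (hd.trans ?_)
    simpa using (DL.refl (g :: x)).append hg
  · have e' : A ++ [g] = (s ++ c :: x ++ c :: t0) ++ [b] := by simp [e]
    obtain ⟨rfl, -⟩ := List.append_inj' e' rfl
    exact h.dualFree s c x (t0 ++ X) (by simp) hd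

/-- The copies of the interval `[p, q)` shifted by `e` and by `e'` are linked by the letter `g`. -/
def Link (P : Set (σ × List σ)) (y : ℕ → σ) (g : σ) (p q e e' : ℕ) : Prop :=
  DL P [g] (g :: seg y (q + e) (p + e') ++ [g])

/-- A chain of occurrences of the window of length `T` with gaps between `T` and `M`. -/
structure Chain (y : ℕ → σ) (T : ℕ) (Rel : ℕ → ℕ → Prop) (M n : ℕ) (e : ℕ → ℕ) : Prop where
  occ : ∀ a, a ≤ n → Occ y T (e a)
  lo : ∀ a, a < n → e a + T ≤ e (a + 1)
  hi : ∀ a, a < n → e (a + 1) ≤ e a + M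
  rel : ∀ a b, a < b → b ≤ n → Rel (e a) (e b)

variable {y : ℕ → σ} {T : ℕ} {Rel : ℕ → ℕ → Prop}

theorem Chain.lo' {M n : ℕ} {e : ℕ → ℕ} (h : Chain y T Rel M n e) {a b : ℕ} (hab : a < b)
    (hb : b ≤ n) : e a + T ≤ e b := by
  induction b, hab using Nat.le_induction with
  | base => exact h.lo a hb
  | succ b hab ih =>
    have := ih (by omega)
    have := h.lo b hb
    omega

theorem Chain.hi' {M n : ℕ} {e : ℕ → ℕ} (h : Chain y T Rel M n e) (a i : ℕ)
    (hb : a + i ≤ n) : e (a + i) ≤ e a + i * M := by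
  induction i with
  | zero => simp
  | succ i ih =>
    have := ih (by omega)
    have := h.hi (a + i) hb
    rw [Nat.succ_mul, ← Nat.add_assoc]
    omega

theorem Chain.shift {M n : ℕ} {e : ℕ → ℕ} (h : Chain y T Rel M n e) (a n' : ℕ)
    (hb : a + n' ≤ n) : Chain y T Rel M n' (fun i => e (a + i)) :=
  ⟨fun i hi => h.occ _ (by omega), fun i hi => h.lo (a + i) (by omega),
    fun i hi => h.hi (a + i) (by omega),
    fun i j hij hj => h.rel _ _ (by omega) (by omega)⟩

theorem Occ.seg_eq {e p q : ℕ} (h : Occ y T e) (hq : q ≤ T) :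
    seg y p q = seg y (p + e) (q + e) :=
  seg_congr (fun i _ hi => (h i (by omega)).symm)

theorem Link.hull {g : σ} {p q e e' s t : ℕ} (h : Link P y g p q e e') (h1 : s ≤ q + e)
    (h2 : q + e ≤ p + e') (h3 : p + e' ≤ t) (d1 : DL P [g] (seg y s (q + e)))
    (d2 : DL P [g] (seg y (p + e') t)) : DL P [g] (seg y s t) := by
  rw [← seg_append y (h1.trans h2) h3, ← seg_append y h1 h2]
  exact DL.trans h ((d1.cons (DL.refl _)).append d2)

theorem Link.trans {g : σ} {p q e e' e'' : ℕ} (h : Link P y g p q e e')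
    (h' : Link P y g p q e' e'') (h1 : q + e ≤ p + e') (hpq : p ≤ q) (h2 : q + e' ≤ p + e'')
    (d : DL P [g] (seg y (p + e') (q + e'))) : Link P y g p q e e'' := by
  unfold Link at *
  rw [← seg_append y (h1.trans (by omega : p + e' ≤ q + e')) h2,
    ← seg_append y h1 (by omega : p + e' ≤ q + e')]
  refine h.trans (DL.trans ((DL.refl _).append h') ?_)
  have := d.ctx (g :: seg y (q + e) (p + e')) (seg y (q + e') (p + e'') ++ [g])
  simpa using this

theorem chain_step (hP : Prop' P) (hL : ∀ p q, LeftFree P (seg y p q))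
    (hR : ∀ p q, RightFree P (seg y p q))
    (hNR : ∀ M, ∃ N, ∀ A s t, Til P M A (seg y s t) → DualFree P A → A.length ≤ N)
    {g : σ} {p q : ℕ} (hpq : p + 2 ≤ q) (hq : q ≤ T) (hg : DL P [g] (seg y p q))
    (h : ∃ M, ∀ n, ∃ e, Chain y T Rel M n e) :
    ∃ M, ∀ n, ∃ e, Chain y T (fun a b => Rel a b ∧ Link P y g p q a b) M n e := by
  classical
  obtain ⟨M, hM⟩ := h
  have tile : ∀ e, Occ y T e → DL P [g] (seg y (p + e) (q + e)) := fun e he => by
    rw [← he.seg_eq hq]; exact hg
  let G : ℕ → ℕ → Prop := fun m n => ∃ e A s θ, Chain y T Rel M n e ∧ s ≤ θ ∧ θ ≤ p + e 0 ∧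
    p + e 0 ≤ θ + M ∧ Til P M A (seg y s θ) ∧ m ≤ A.length ∧
    ∀ a, a ≤ n → DualFree P (A ++ seg y θ (p + e a) ++ [g])
  have Q0 : ∀ n, G 0 n := by
    intro n
    obtain ⟨e, he⟩ := hM n
    refine ⟨e, [], p + e 0, p + e 0, he, le_rfl, le_rfl, by omega, by simpa using Til.nil M,
      le_rfl, fun a ha => ?_⟩
    have h0 : e 0 ≤ e a := by
      rcases Nat.eq_zero_or_pos a with rfl | h0
      · exact le_rfl
      · have := he.lo' h0 ha
        omega
    refine dualFree_snoc hP ?_ (tile _ (he.occ a ha))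
    rw [List.nil_append, seg_append y (by omega) (by omega)]
    exact hL _ _
  obtain ⟨N, hN⟩ := hNR M
  have QN : ¬ ∀ n, G (N + 1) n := by
    intro hc
    obtain ⟨e, A, s, θ, -, -, -, -, h5, h6, h7⟩ := hc 0
    have := hN A s θ h5 (DualFree.factor (s := []) (t := seg y θ (p + e 0) ++ [g])
      (by simpa using h7 0 le_rfl))
    omega
  have hex : ∃ m, ¬ ∀ n, G (m + 1) n := ⟨N, QN⟩
  have Qm : ∀ n, G (Nat.find hex) n := by
    rcases Nat.eq_zero_or_pos (Nat.find hex) with h0 | h0
    · rw [h0]; exact Q0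
    · have := Nat.find_min hex (m := Nat.find hex - 1) (by omega)
      rw [Nat.sub_add_cancel h0] at this
      exact not_not.mp this
  obtain ⟨n0, hn0⟩ := not_forall.mp (Nat.find_spec hex)
  generalize Nat.find hex = m at Qm hn0
  refine ⟨(n0 + 1) * M, fun n => ?_⟩
  obtain ⟨e, A, s, θ, he, h2, h3, h4, h5, h6, h7⟩ := Qm (n * (n0 + 1))
  have step : ∀ a, ∃ a', a + (n0 + 1) ≤ n * (n0 + 1) → DL P [g] (seg y (p + e 0) (q + e a)) →
      a < a' ∧ a' ≤ a + (n0 + 1) ∧ Link P y g p q (e a) (e a') ∧
        DL P [g] (seg y (p + e 0) (q + e a')) := by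
    intro a
    by_cases hc : a + (n0 + 1) ≤ n * (n0 + 1) ∧ DL P [g] (seg y (p + e 0) (q + e a))
    swap
    · exact ⟨0, fun c1 c2 => absurd ⟨c1, c2⟩ hc⟩
    obtain ⟨c1, c2⟩ := hc
    have h0 : e 0 ≤ e a := by
      rcases Nat.eq_zero_or_pos a with rfl | h0
      · exact le_rfl
      · have := he.lo' h0 (by omega)
        omega
    have t1 := h5.snoc hP (L := seg y θ (p + e 0)) (by simp; omega) c2 (by simp; omega)
    rw [seg_append y h2 h3, seg_append y (by omega) (by omega)] at t1
    have l1 := he.lo a (by omega)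
    have l2 := he.hi a (by omega)
    have hex2 : ∃ i, i ≤ n0 ∧ ¬ DualFree P
        (A ++ seg y θ (p + e 0) ++ [g] ++ seg y (q + e a) (p + e (a + 1 + i)) ++ [g]) := by
      by_contra hcon
      push Not at hcon
      refine hn0 ⟨fun i => e (a + 1 + i), _, s, q + e a, he.shift (a + 1) n0 (by omega), by omega,
        ?_, ?_, t1, by simp; omega, hcon⟩
      · simp only [Nat.add_zero]; omega
      · simp only [Nat.add_zero]; omega
    obtain ⟨i, hi, hd⟩ := hex2
    have l3 := he.lo' (a := a) (b := a + 1 + i) (by omega) (by omega)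
    obtain ⟨v, t, e1, d1⟩ := dual_mid (A := A ++ seg y θ (p + e 0))
      (X := seg y (p + e 0) (q + e a)) (B := seg y (q + e a) (p + e (a + 1 + i)) ++ [g]) (g := g)
      (by
        have := h7 (a + 1 + i) (by omega)
        rw [← seg_append y (by omega : θ ≤ q + e a) (by omega : q + e a ≤ p + e (a + 1 + i)),
          ← seg_append y h3 (by omega : p + e 0 ≤ q + e a)] at this
        simpa using this) c2 (h7 0 (by omega)) (by simpa using hd)
    have hlink : Link P y g p q (e a) (e (a + 1 + i)) := by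
      rcases List.eq_nil_or_concat t with rfl | ⟨t0, b, rfl⟩
      · obtain ⟨e2, -⟩ := List.append_inj' e1 rfl
        unfold Link
        rw [e2]
        exact d1
      · have e' : seg y (q + e a) (p + e (a + 1 + i)) ++ [g] = (v ++ g :: t0) ++ [b] := by
          simp [e1]
        obtain ⟨e2, -⟩ := List.append_inj' e' rfl
        refine absurd (d1.trans ?_) (hR (p + e 0) (p + e (a + 1 + i)) []
          (seg y (p + e 0) (q + e a) ++ v) g t0 ?_ ?_)
        · exact (c2.cons (DL.refl v)).append (DL.refl _)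
        · rw [← seg_append y (by omega : p + e 0 ≤ q + e a)
            (by omega : q + e a ≤ p + e (a + 1 + i)), e2]
          simp
        · simp [c2.ne_nil hP (by simp)]
    exact ⟨a + 1 + i, fun _ _ => ⟨by omega, by omega, hlink,
      hlink.hull (by omega) (by omega) (by omega) c2 (tile _ (he.occ _ (by omega)))⟩⟩
  choose f hf using step
  let α : ℕ → ℕ := fun i => Nat.rec 0 (fun _ a => f a) i
  have hα : ∀ i, α (i + 1) = f (α i) := fun _ => rfl
  have inv : ∀ i, i ≤ n → α i ≤ i * (n0 + 1) ∧ DL P [g] (seg y (p + e 0) (q + e (α i))) := by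
    intro i
    induction i with
    | zero => exact fun _ => ⟨by simp [α], tile _ (he.occ 0 (Nat.zero_le _))⟩
    | succ i ih =>
      intro hi
      obtain ⟨i1, i2⟩ := ih (by omega)
      have : (i + 1) * (n0 + 1) ≤ n * (n0 + 1) := Nat.mul_le_mul_right _ hi
      rw [Nat.succ_mul] at this
      obtain ⟨-, j2, -, j4⟩ := hf (α i) (by omega) i2
      rw [hα, Nat.succ_mul]
      exact ⟨by omega, j4⟩
  have st : ∀ i, i < n → α i < α (i + 1) ∧ α (i + 1) ≤ α i + (n0 + 1) ∧
      Link P y g p q (e (α i)) (e (α (i + 1))) := by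
    intro i hi
    obtain ⟨i1, i2⟩ := inv i hi.le
    have : (i + 1) * (n0 + 1) ≤ n * (n0 + 1) := Nat.mul_le_mul_right _ hi
    rw [Nat.succ_mul] at this
    obtain ⟨j1, j2, j3, -⟩ := hf (α i) (by omega) i2
    exact ⟨j1, j2, j3⟩
  have bd : ∀ i, i ≤ n → α i ≤ n * (n0 + 1) := fun i hi =>
    (inv i hi).1.trans (Nat.mul_le_mul_right _ hi)
  have pair : ∀ a b, a < b → b ≤ n → α a < α b ∧ Link P y g p q (e (α a)) (e (α b)) := by
    intro a b hab
    induction b, hab using Nat.le_induction with
    | base => exact fun hb => ⟨(st a hb).1, (st a hb).2.2⟩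
    | succ b hab ih =>
      intro hb
      obtain ⟨i1, i2⟩ := ih (by omega)
      obtain ⟨j1, -, j3⟩ := st b hb
      have k1 := he.lo' i1 (bd b (by omega))
      have k2 := he.lo' j1 (bd _ hb)
      exact ⟨i1.trans j1, i2.trans j3 (by omega) (by omega) (by omega)
        (tile _ (he.occ _ (bd b (by omega))))⟩
  refine ⟨fun i => e (α i), fun a ha => he.occ _ (bd a ha),
    fun a ha => he.lo' (st a ha).1 (bd _ ha), fun a ha => ?_,
    fun a b hab hb => ⟨he.rel _ _ (pair a b hab hb).1 (bd b hb), (pair a b hab hb).2⟩⟩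
  obtain ⟨j1, j2, -⟩ := st a ha
  obtain ⟨i, hi⟩ := Nat.exists_eq_add_of_le j1.le
  have k1 := he.hi' (α a) i (by rw [← hi]; exact bd _ ha)
  have k2 : i * M ≤ (n0 + 1) * M := Nat.mul_le_mul_right _ (by omega)
  rw [← hi] at k1
  omega

theorem chain_base (hrec : ∃ M, ∀ e, ∃ e', e ≤ e' ∧ e' ≤ e + M ∧ Occ y T e') :
    ∃ M, ∀ n, ∃ e, Chain y T (fun _ _ => True) M n e := by
  obtain ⟨M, hM⟩ := hrec
  choose f hf using hM
  refine ⟨T + M, fun n => ⟨fun i => Nat.rec (f 0) (fun _ a => f (a + T)) i, ?_, ?_, ?_,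
    fun _ _ _ _ => trivial⟩⟩
  · intro a _
    cases a with
    | zero => exact (hf 0).2.2
    | succ a => exact (hf _).2.2
  · intro a _
    exact (hf _).1
  · intro a _
    exact (hf _).2.1.trans (by omega)

theorem chain_all {ι : Type*} (S : Finset ι) (hP : Prop' P) (hL : ∀ p q, LeftFree P (seg y p q))
    (hR : ∀ p q, RightFree P (seg y p q))
    (hNR : ∀ M, ∃ N, ∀ A s t, Til P M A (seg y s t) → DualFree P A → A.length ≤ N)
    (hrec : ∃ M, ∀ e, ∃ e', e ≤ e' ∧ e' ≤ e + M ∧ Occ y T e')
    (g : ι → σ) (p q : ι → ℕ)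
    (h : ∀ i ∈ S, p i + 2 ≤ q i ∧ q i ≤ T ∧ DL P [g i] (seg y (p i) (q i))) :
    ∃ M, ∀ n, ∃ e, Chain y T (fun a b => ∀ i ∈ S, Link P y (g i) (p i) (q i) a b) M n e := by
  classical
  induction S using Finset.induction_on with
  | empty => simpa using chain_base hrec
  | insert a S _ ih =>
    obtain ⟨h1, h2, h3⟩ := h a (Finset.mem_insert_self _ _)
    obtain ⟨M, hM⟩ := chain_step hP hL hR hNR h1 h2 h3
      (ih (fun i hi => h i (Finset.mem_insert_of_mem hi)))
    refine ⟨M, fun n => ?_⟩
    obtain ⟨e, he⟩ := hM n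
    refine ⟨e, he.occ, he.lo, he.hi, fun i j hij hj k hk => ?_⟩
    rcases Finset.mem_insert.mp hk with rfl | hk
    · exact (he.rel i j hij hj).2
    · exact (he.rel i j hij hj).1 k hk

end Pool.Agent.P.MP_676b89_lc
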