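import Pool.Agent.P.MP_676b89_lc.Basic

/-!
Minimal factor-closed languages and uniformly recurrent words.
-/

namespace Pool.Agent.P.MP_676b89_lc

variable {σ : Type*}

/-- Closed under taking factors. -/
def FC (L : Set (List σ)) : Prop := ∀ s w t, s ++ w ++ t ∈ L → w ∈ L

theorem chain_avoid {c : Set (Set (List σ))} (hc : IsChain (· ⊆ ·) c) (hne : c.Nonempty)
    {W : Set (List σ)} (hW : W.Finite) (h : ∀ w ∈ W, ∃ L ∈ c, w ∉ L) :
    ∃ L ∈ c, ∀ w ∈ W, w ∉ L := by
  induction W, hW using Set.Finite.induction_on with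
  | empty =>
    obtain ⟨L, hL⟩ := hne
    exact ⟨L, hL, by simp⟩
  | @insert a W _ _ ih =>
    obtain ⟨L1, h1, g1⟩ := ih (fun w hw => h w (Set.mem_insert_of_mem _ hw))
    obtain ⟨L2, h2, g2⟩ := h a (Set.mem_insert _ _)
    rcases hc.total h1 h2 with hs | hs
    · refine ⟨L1, h1, ?_⟩
      rintro w (rfl | hw)
      · exact fun hw => g2 (hs hw)
      · exact g1 w hw
    · refine ⟨L2, h2, ?_⟩
      rintro w (rfl | hw)
      · exact g2
      · exact fun hw' => g1 w hw (hs hw')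

theorem exists_min_lang [Finite σ] (C : Set (List σ) → Prop)
    (hC : ∀ c : Set (Set (List σ)), (∀ L ∈ c, C L) → C (⋂₀ c)) (G : List σ → Prop)
    (L0 : Set (List σ)) (h1 : FC L0) (h2 : C L0) (h3 : ∀ N, ∃ w ∈ L0, G w ∧ w.length = N) :
    ∃ A, A ⊆ L0 ∧ FC A ∧ C A ∧ (∀ N, ∃ w ∈ A, G w ∧ w.length = N) ∧
      ∀ B, B ⊆ A → FC B → C B → (∀ N, ∃ w ∈ B, G w ∧ w.length = N) → A ⊆ B := by
  obtain ⟨A, hA, hm⟩ := zorn_superset_nonempty
    {L : Set (List σ) | FC L ∧ C L ∧ ∀ N, ∃ w ∈ L, G w ∧ w.length = N} (by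
      intro c hc hch hne
      refine ⟨⋂₀ c, ⟨?_, hC c (fun L hL => (hc hL).2.1), ?_⟩, fun s hs => Set.sInter_subset_of_mem hs⟩
      · intro s w t hw L hL
        exact (hc hL).1 s w t (hw L hL)
      · intro N
        by_contra hcon
        push Not at hcon
        have hfin : {w : List σ | G w ∧ w.length = N}.Finite :=
          (List.finite_length_eq σ N).subset (fun w hw => hw.2)
        obtain ⟨L, hL, hav⟩ := chain_avoid hch hne hfin (by
          intro w hw
          by_contra hc2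
          push Not at hc2
          exact hcon w (fun L hL => hc2 L hL) hw.1 hw.2)
        obtain ⟨w, hw, g1, g2⟩ := (hc hL).2.2 N
        exact hav w ⟨g1, g2⟩ hw) L0 ⟨h1, h2, h3⟩
  refine ⟨A, hA, hm.1.1, hm.1.2.1, hm.1.2.2, ?_⟩
  intro B hB b1 b2 b3
  exact hm.2 ⟨b1, b2, b3⟩ hB

theorem FC.exact_length {L : Set (List σ)} (h : FC L) (hu : ∀ N, ∃ w ∈ L, N ≤ w.length) (N : ℕ) :
    ∃ w ∈ L, w.length = N := by
  obtain ⟨w, hw, hN⟩ := hu N
  refine ⟨w.take N, h [] _ (w.drop N) (by simpa using hw), by simp [hN]⟩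

/-- The prefix of length `T` of `y` occurs again at position `e`. -/
def Occ (y : ℕ → σ) (T e : ℕ) : Prop := ∀ i, i < T → y (i + e) = y i

theorem exists_recurrent [Finite σ] (L : Set (List σ)) (h1 : FC L)
    (hu : ∀ N, ∃ w ∈ L, N ≤ w.length) :
    ∃ y : ℕ → σ, (∀ p q, seg y p q ∈ L) ∧
      ∀ T, ∃ M, ∀ e, ∃ e', e ≤ e' ∧ e' ≤ e + M ∧ Occ y T e' := by
  obtain ⟨A, hA, a1, -, a3, a4⟩ := exists_min_lang (fun _ => True) (fun _ _ => trivial)
    (fun _ => True) L h1 trivial (fun N => by simpa using h1.exact_length hu N)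
  have rec1 : ∀ w ∈ A, ∃ M, ∀ x ∈ A, M ≤ x.length → ∃ s t, x = s ++ w ++ t := by
    intro w hw
    by_contra hcon
    push Not at hcon
    have fc : FC {x | x ∈ A ∧ ∀ s t, x ≠ s ++ w ++ t} := by
      intro s x t hx
      refine ⟨a1 s x t hx.1, ?_⟩
      rintro s' t' rfl
      exact hx.2 (s ++ s') (t' ++ t) (by simp)
    have := a4 {x | x ∈ A ∧ ∀ s t, x ≠ s ++ w ++ t} (fun x hx => hx.1) fc trivial (fun N => by
      have := fc.exact_length (fun N => by
        obtain ⟨x, hx, g1, g2⟩ := hcon N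
        exact ⟨x, ⟨hx, g2⟩, g1⟩) N
      simpa using this)
    exact (this hw).2 [] [] (by simp)
  have ext1 : ∀ w : A, ∃ a, w.1 ++ [a] ∈ A := by
    rintro ⟨w, hw⟩
    obtain ⟨M, hM⟩ := rec1 w hw
    obtain ⟨x, hx, -, hl⟩ := a3 (M + 1)
    obtain ⟨x', b, rfl⟩ : ∃ x' b, x = x' ++ [b] := by
      rcases List.eq_nil_or_concat x with rfl | ⟨x', b, rfl⟩
      · simp at hl
      · exact ⟨x', b, by simp⟩
    obtain ⟨s, t, rfl⟩ := hM x' (a1 [] x' [b] (by simpa using hx)) (by simp at hl; omega)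
    cases t with
    | nil => exact ⟨b, a1 s _ [] (by simpa using hx)⟩
    | cons c t => exact ⟨c, a1 s _ (t ++ [b]) (by simpa using hx)⟩
  choose ext hext using ext1
  have hnil : ([] : List σ) ∈ A := by
    obtain ⟨x, hx, -, hl⟩ := a3 0
    rwa [List.length_eq_zero_iff.mp hl] at hx
  let W : ℕ → A := fun n => Nat.rec ⟨[], hnil⟩ (fun _ w => ⟨w.1 ++ [ext w], hext w⟩) n
  let y : ℕ → σ := fun n => ext (W n)
  have hW : ∀ n, (W n).1 = seg y 0 n := by
    intro n
    induction n with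
    | zero => simp [W]
    | succ n ih => rw [seg_snoc y (Nat.zero_le n), ← ih]
  have hseg : ∀ p q, seg y p q ∈ A := by
    intro p q
    rcases le_total p q with h | h
    · refine a1 (seg y 0 p) _ [] ?_
      rw [List.append_nil, seg_append y (Nat.zero_le p) h, ← hW]
      exact (W q).2
    · rw [seg_of_le y h]; exact hnil
  refine ⟨y, fun p q => hA (hseg p q), fun T => ?_⟩
  obtain ⟨M, hM⟩ := rec1 _ (hseg 0 T)
  refine ⟨M, fun e => ?_⟩
  obtain ⟨s, t, hst⟩ := hM _ (hseg e (e + M)) (by simp)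
  rw [List.append_assoc] at hst
  obtain ⟨g1, -, g3⟩ := seg_eq_append y (Nat.le_add_right e M) hst
  obtain ⟨g4, g5, -⟩ := seg_eq_append y g1 g3.symm
  refine ⟨e + s.length, by omega, by omega, fun i hi => ?_⟩
  simp only [length_seg, Nat.sub_zero] at g5
  have := seg_pointwise (y := y) (y' := y) (p := 0) (p' := e + s.length) (t := T)
    (by simpa using g5) hi
  rw [Nat.add_comm i, ← this, Nat.zero_add]

end Pool.Agent.P.MP_676b89_lc
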