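import Pool.Agent.P.MP_676b89_lc.Pump
import Pool.Agent.P.MP_676b89_lc.Zorn

/-!
From long words without dual factors to long ancestors without left and right factors.
-/

namespace Pool.Agent.P.MP_676b89_lc

variable {σ : Type*} {P : Set (σ × List σ)}

/-- Closed under taking ancestors. -/
def AC (P : Set (σ × List σ)) (L : Set (List σ)) : Prop := ∀ u w, DL P u w → w ∈ L → u ∈ L

/-- Decomposition of a word into blocks `z c z'` with `c ⇒* z c` and `c ⇒* c z'`. -/
inductive Core (P : Set (σ × List σ)) : List σ → List σ → Prop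
  | nil : Core P [] []
  | cons (c : σ) (z z' u w : List σ) : DL P [c] (z ++ [c]) → DL P [c] (c :: z') → Core P u w →
      Core P (c :: u) (z ++ c :: z' ++ w)

theorem Core.refl (w : List σ) : Core P w w := by
  induction w with
  | nil => exact Core.nil
  | cons a w ih => simpa using Core.cons a [] [] w w (DL.refl _) (DL.refl _) ih

theorem DL.block {c : σ} {z z' : List σ} (h1 : DL P [c] (z ++ [c])) (h2 : DL P [c] (c :: z')) :
    DL P [c] (z ++ c :: z') := h1.trans ((DL.refl z).append h2)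

theorem Core.dl {u w : List σ} (h : Core P u w) : DL P u w := by
  induction h with
  | nil => exact DL.nil
  | cons c z z' u w h1 h2 _ ih => exact (h1.block h2).cons ih

theorem Core.append {u1 w1 u2 w2 : List σ} (h1 : Core P u1 w1) (h2 : Core P u2 w2) :
    Core P (u1 ++ u2) (w1 ++ w2) := by
  induction h1 with
  | nil => simpa using h2
  | cons c z z' u w g1 g2 _ ih =>
    have := Core.cons c z z' _ _ g1 g2 ih
    simpa [List.append_assoc] using this

theorem Core.split {u1 u2 w : List σ} (h : Core P (u1 ++ u2) w) :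
    ∃ w1 w2, w = w1 ++ w2 ∧ Core P u1 w1 ∧ Core P u2 w2 := by
  induction u1 generalizing w with
  | nil => exact ⟨[], w, rfl, Core.nil, h⟩
  | cons a u1 ih =>
    rw [List.cons_append] at h
    cases h with
    | cons _ z z' _ w' g1 g2 h' =>
      obtain ⟨x1, x2, rfl, h1, h2⟩ := ih h'
      exact ⟨z ++ a :: z' ++ x1, x2, by simp, Core.cons a z z' _ _ g1 g2 h1, h2⟩

theorem Core.split_at {u1 u2 w : List σ} {c : σ} (h : Core P (u1 ++ c :: u2) w) :
    ∃ A z z' B, w = A ++ z ++ c :: z' ++ B ∧ Core P u1 A ∧ DL P [c] (z ++ [c]) ∧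
      DL P [c] (c :: z') ∧ Core P u2 B := by
  obtain ⟨A, x, rfl, h1, h2⟩ := h.split
  cases h2 with
  | cons _ z z' _ B g1 g2 h' => exact ⟨A, z, z', B, by simp, h1, g1, g2, h'⟩

theorem exists_core_free (w : List σ) :
    ∃ u, Core P u w ∧ LeftFree P u ∧ RightFree P u := by
  classical
  have hex : ∃ n, ∃ u : List σ, Core P u w ∧ u.length = n := ⟨_, w, Core.refl w, rfl⟩
  obtain ⟨u, hu, hl⟩ := Nat.find_spec hex
  have hmin : ∀ u', Core P u' w → u.length ≤ u'.length := fun u' h' => by
    rw [hl]; exact Nat.find_min' hex ⟨u', h', rfl⟩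
  refine ⟨u, hu, ?_, ?_⟩
  · rintro s c x t rfl hx hd
    obtain ⟨A, z, z', B, rfl, h1, h2, h3, h4⟩ := Core.split_at (u1 := s) (u2 := x ++ t) (c := c)
      (by simpa using hu)
    obtain ⟨B1, B2, rfl, h5, h6⟩ := h4.split
    have d : DL P [c] (c :: (z' ++ B1)) := hd.trans (h3.cons h5.dl)
    have := hmin (s ++ c :: t) (by
      simpa [List.append_assoc] using h1.append (Core.cons c z (z' ++ B1) _ _ h2 d h6))
    have h0 : 0 < x.length := List.length_pos_iff.mpr hx
    simp only [List.length_append, List.length_cons] at this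
    omega
  · rintro s x c t rfl hx hd
    obtain ⟨A, z, z', B, rfl, h1, h2, h3, h4⟩ := hu.split_at
    obtain ⟨A1, A2, rfl, h5, h6⟩ := h1.split
    have d : DL P [c] ((A2 ++ z) ++ [c]) := by
      simpa [List.append_assoc] using hd.trans (h6.dl.append h2)
    have := hmin (s ++ c :: t) (by
      simpa [List.append_assoc] using h5.append (Core.cons c (A2 ++ z) z' _ _ d h3 h4))
    have h0 : 0 < x.length := List.length_pos_iff.mpr hx
    simp only [List.length_append, List.length_cons] at this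
    omega

theorem path_ramsey {κ : Type*} (C : Finset κ) (r : κ → ℕ → ℕ → Prop) (f : ℕ → ℕ)
    (hf : StrictMono f) (h : ∀ m n, m < n → ∃ c ∈ C, r c (f m) (f n)) :
    ∃ c, ∃ g : ℕ → ℕ, StrictMono g ∧ ∀ n, r c (g n) (g (n + 1)) := by
  classical
  induction C using Finset.induction_on generalizing f with
  | empty => simpa using h 0 1 one_pos
  | insert a C _ ih =>
    obtain ⟨g, hg | hg⟩ := exists_increasing_or_nonincreasing_subseq' (r a) f
    · exact ⟨a, f ∘ g, hf.comp g.strictMono, hg⟩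
    · refine ih (f ∘ g) (hf.comp g.strictMono) (fun m n hmn => ?_)
      obtain ⟨c, hc, hr⟩ := h (g m) (g n) (g.strictMono hmn)
      rcases Finset.mem_insert.mp hc with rfl | hc
      · exact absurd hr (hg m n hmn)
      · exact ⟨c, hc, hr⟩

theorem dual_of_path {x : ℕ → σ} {g : ℕ → ℕ} (hg : StrictMono g) {U : List σ}
    (hU : ∀ n, Core P U (seg x (g n) (g (n + 1)))) (hc : PC P U) :
    ∃ p q, ¬ DualFree P (seg x p q) := by
  obtain ⟨u1, h, u2, k, rfl, hk, hd⟩ := hc
  choose A z z' B e hA hz hz' hB using fun n => (hU n).split_at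
  have key : ∀ k, ∃ E, seg x (g 1) (g (k + 1)) ++ A (k + 1) = A 1 ++ E ∧
      DL P (pw (h :: u2 ++ u1) k) E := by
    intro k
    induction k with
    | zero => exact ⟨[], by simp, DL.nil⟩
    | succ k ih =>
      obtain ⟨E, e1, d1⟩ := ih
      refine ⟨E ++ (z (k + 1) ++ h :: z' (k + 1) ++ (B (k + 1) ++ A (k + 1 + 1))), ?_, ?_⟩
      · rw [← seg_append x (hg.monotone (by omega : 1 ≤ k + 1))
          (hg.monotone (by omega : k + 1 ≤ k + 1 + 1)), e (k + 1), ← List.append_assoc (A 1), ← e1]
        simp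
      · rw [pw_succ']
        exact d1.append (((hz _).block (hz' _)).cons ((hB _).dl.append (hA _).dl))
  obtain ⟨k, rfl⟩ : ∃ k', k = k' + 1 := ⟨k - 1, by omega⟩
  obtain ⟨E, e1, d1⟩ := key k
  refine ⟨g 0, g (k + 1 + 1), fun hf => hf (A 0 ++ z 0) h (z' 0 ++ B 0 ++ A 1 ++ E ++ z (k + 1))
    (z' (k + 1) ++ B (k + 1)) ?_ ?_⟩
  · rw [← seg_append x (hg.monotone (by omega : 0 ≤ 1)) (hg.monotone (by omega : 1 ≤ k + 1 + 1)),
      ← seg_append x (hg.monotone (by omega : 1 ≤ k + 1))
        (hg.monotone (by omega : k + 1 ≤ k + 1 + 1)), e (k + 1), e 0]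
    simp only [List.append_assoc, List.cons_append, List.append_cancel_left_eq, List.cons.injEq,
      true_and]
    rw [← List.append_assoc (seg _ _ _), e1]
    simp
  · refine hd.trans ?_
    rw [pw_succ]
    have := (((hz' 0).cons ((hB 0).dl.append (hA 1).dl)).append d1).append (hz (k + 1))
    simpa [List.append_assoc] using this

theorem exists_long_mixed_free [Finite σ] (hH : HLeft P) {A : Set (List σ)} (a1 : FC A)
    (a2 : AC P A) (a3 : ∀ N, ∃ w ∈ A, DualFree P w ∧ w.length = N) (N : ℕ) :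
    ∃ w ∈ A, LeftFree P w ∧ RightFree P w ∧ N ≤ w.length := by
  classical
  by_contra hcon
  push Not at hcon
  obtain ⟨x, hx, -⟩ := exists_recurrent {w | w ∈ A ∧ DualFree P w}
    (fun s w t hw => ⟨a1 s w t hw.1, hw.2.factor⟩)
    (fun N => by
      obtain ⟨w, h1, h2, h3⟩ := a3 N
      exact ⟨w, ⟨h1, h2⟩, h3.ge⟩)
  obtain ⟨U, g, hg, hU⟩ := path_ramsey (List.finite_length_lt σ N).toFinset
    (fun U i j => Core P U (seg x i j)) id strictMono_id (fun m n _ => by
      obtain ⟨u, h1, h2, h3⟩ := exists_core_free (P := P) (seg x m n)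
      exact ⟨u, by simpa using hcon u (a2 _ _ h1.dl (hx m n).1) h2 h3, h1⟩)
  have hne : U ≠ [] := by
    rintro rfl
    have h1 := congrArg List.length (hU 0).dl.nil_left
    have h2 : g 0 < g (0 + 1) := hg (by omega)
    simp at h1 h2
    omega
  obtain ⟨p, q, hpq⟩ := dual_of_path hg hU (pc_of_hleft hH U hne)
  exact hpq (hx p q).2

end Pool.Agent.P.MP_676b89_lc
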