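import Pool.Agent.P.MP_676b89_lc.Chain

/-!
Lifting a parse tree from a word with deleted pieces back to the original word.
-/

namespace Pool.Agent.P.MP_676b89_lc

variable {σ : Type*} {P : Set (σ × List σ)}

theorem lift (hP : Prop' P) {n K : ℕ} (hn : ∀ r ∈ P, r.2.length ≤ n) {y ys : ℕ → σ} {t d : ℕ → ℕ}
    (ht : ∀ k, t k + 2 * n < t (k + 1)) (hd : Monotone d)
    (hag : ∀ k, k ≤ K → ∀ p, t k ≤ p → p < t (k + 1) + 2 * n → ys p = y (p + d k))
    (hL : ∀ k, k + 1 ≤ K → ∀ b, t (k + 1) ≤ b → b ≤ t (k + 1) + 2 * n → ∀ g s,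
      b + d (k + 1) + 2 ≤ s → DL P [g] (seg y (b + d (k + 1)) s) → DL P [g] (seg y (b + d k) s))
    (hR : ∀ k, k + 1 ≤ K → ∀ b, t (k + 1) ≤ b → b ≤ t (k + 1) + 2 * n → ∀ g s,
      s + 2 ≤ b + d k → DL P [g] (seg y s (b + d k)) → DL P [g] (seg y s (b + d (k + 1))))
    {u w : List σ} (h : DL P u w) :
    ∀ p q k l, w = seg ys p q → u.length ≤ n → k ≤ l → l ≤ K → t k ≤ p → p ≤ q →
      q ≤ t (l + 1) + 2 * n →
      (k = l ∨ (p + u.length ≤ t (k + 1) + 2 * n ∧ t l + 2 * n < q)) →
      DL P u (seg y (p + d k) (q + d l)) := by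
  classical
  have htm : Monotone t := monotone_nat_of_le_succ (fun k => by have := ht k; omega)
  have same : ∀ k, k ≤ K → ∀ p q, t k ≤ p → q ≤ t (k + 1) + 2 * n →
      seg ys p q = seg y (p + d k) (q + d k) := fun k hk p q h1 h2 =>
    seg_congr (fun i i1 i2 => hag k hk i (by omega) (by omega))
  induction h with
  | nil =>
    intro p q k l e _ hkl hl h1 h2 h3 h4
    have hq : q = p := by
      have := congrArg List.length e
      simp at this
      omega
    subst hq
    rcases eq_or_lt_of_le hkl with rfl | hlt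
    · simpa using DL.nil
    · have := htm (show k + 1 ≤ l from hlt)
      simp only [List.length_nil] at h4
      omega
  | keep a u w hw ih =>
    intro p q k l e hu hkl hl h1 h2 h3 h4
    rcases eq_or_lt_of_le hkl with rfl | hlt
    · rw [← same k hl p q h1 h3, ← e]
      exact DL.keep a u w hw
    · have hpq : p < q := by
        have := congrArg List.length e
        simp at this
        omega
      rw [seg_cons ys hpq] at e
      simp only [List.cons.injEq] at e
      simp only [List.length_cons] at h4 hu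
      have := hd hkl
      rw [seg_cons y (by omega : p + d k < q + d l), ← hag k (by omega) p h1 (by omega), ← e.1]
      have := ih (p + 1) q k l e.2 (by omega) hkl hl (by omega) hpq h3 (by omega)
      rw [Nat.add_right_comm] at this
      exact DL.keep a u _ this
  | exp a v u w1 w2 hp hv hw ih1 ih2 =>
    intro p q k l e hu hkl hl h1 h2 h3 h4
    rcases eq_or_lt_of_le hkl with rfl | hlt
    · rw [← same k hl p q h1 h3, ← e]
      exact DL.exp a v u w1 w2 hp hv hw
    simp only [List.length_cons] at h4 hu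
    obtain ⟨g1, g2, g3⟩ := seg_eq_append ys h2 e.symm
    have hw1 : 0 < w1.length := List.length_pos_iff.mpr (hv.ne_nil hP (hP _ hp))
    have hvn : v.length ≤ n := hn _ hp
    generalize hb : p + w1.length = b at g1 g2 g3
    have hdk := hd hkl
    by_cases hone : b = p + 1
    · have r := ih2 b q k l g3 (by omega) hkl hl (by omega) g1 h3 (by omega)
      rw [same k (by omega) p b h1 (by omega)] at g2
      rw [← seg_append y (by omega : p + d k ≤ b + d k) (by omega : b + d k ≤ q + d l), ← g2]
      exact DL.exp a v u _ _ hp hv r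
    obtain ⟨c, c1, c2, c3, c4⟩ : ∃ c, k ≤ c ∧ c ≤ l ∧ t c ≤ b ∧ (c = l ∨ b < t (c + 1)) := by
      refine ⟨Nat.findGreatest (fun i => t i ≤ b) l, Nat.le_findGreatest hkl (by omega),
        Nat.findGreatest_le l, Nat.findGreatest_spec (P := fun i => t i ≤ b) hkl (by omega), ?_⟩
      by_contra hc
      push Not at hc
      have a1 := Nat.findGreatest_le (P := fun i => t i ≤ b) l
      have := Nat.le_findGreatest (P := fun i => t i ≤ b) (m := Nat.findGreatest _ l + 1) (n := l)
        (by omega) hc.2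
      omega
    have r := ih2 b q c l g3 (by omega) c2 hl c3 g1 h3 (by omega)
    have hb2 : b ≤ t (c + 1) + 2 * n := by
      rcases c4 with rfl | c4 <;> omega
    have hdc := hd c1
    have hdl := hd c2
    rw [← seg_append y (by omega : p + d k ≤ b + d c) (by omega : b + d c ≤ q + d l)]
    refine DL.cons ?_ r
    have node : ∀ k', k' ≤ c → t k' ≤ p → (k' = c ∨ p + n ≤ t (k' + 1) + 2 * n) →
        DL P [a] (seg y (p + d k') (b + d c)) := by
      intro k' k1 k2 k3
      by_cases hc : k' < c ∧ b ≤ t c + 2 * n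
      · obtain ⟨c', rfl⟩ : ∃ c', c = c' + 1 := ⟨c - 1, by omega⟩
        have := ht c'
        have r1 := ih1 p b k' c' g2 hvn (by omega) (by omega) k2 (by omega) hc.2 (by omega)
        have := hd (show k' ≤ c' by omega)
        exact hR c' (by omega) b c3 hc.2 a _ (by omega) (DL.of_rule hp r1)
      · exact DL.of_rule hp (ih1 p b k' c g2 hvn k1 (by omega) k2 (by omega) hb2 (by omega))
    by_cases hc : k < c ∧ t (k + 1) ≤ p
    · have := ht (k + 1)
      have r1 := node (k + 1) hc.1 hc.2 (by omega)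
      have := hd (show k + 1 ≤ c from hc.1)
      exact hL k (by omega) p hc.2 (by omega) a _ (by omega) r1
    · exact node k c1 h1 (by omega)

theorem lift_left (hP : Prop' P) {n K : ℕ} (hn1 : 1 ≤ n) (hn : ∀ r ∈ P, r.2.length ≤ n)
    {y ys : ℕ → σ} {t d : ℕ → ℕ} (ht0 : t 0 = 0)
    (ht : ∀ k, t k + 2 * n < t (k + 1)) (hd : Monotone d)
    (hag : ∀ k, k ≤ K → ∀ p, t k ≤ p → p < t (k + 1) + 2 * n → ys p = y (p + d k))
    (hL : ∀ k, k + 1 ≤ K → ∀ b, t (k + 1) ≤ b → b ≤ t (k + 1) + 2 * n → ∀ g s,
      b + d (k + 1) + 2 ≤ s → DL P [g] (seg y (b + d (k + 1)) s) → DL P [g] (seg y (b + d k) s))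
    (hR : ∀ k, k + 1 ≤ K → ∀ b, t (k + 1) ≤ b → b ≤ t (k + 1) + 2 * n → ∀ g s,
      s + 2 ≤ b + d k → DL P [g] (seg y s (b + d k)) → DL P [g] (seg y s (b + d (k + 1))))
    (hy : ∀ p q, LeftFree P (seg y p q)) : LeftFree P (seg ys 0 (t K)) := by
  classical
  have htm : Monotone t := monotone_nat_of_le_succ (fun k => by have := ht k; omega)
  intro s c z r e hz hc
  obtain ⟨g1, g2, -⟩ := seg_eq_append ys (Nat.zero_le _) e
  obtain ⟨g3, -, g4⟩ := seg_eq_append ys (Nat.zero_le _) g2.symm
  have hz0 : 0 < z.length := List.length_pos_iff.mpr hz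
  generalize hq : 0 + (s ++ c :: z).length = q at g1 g3 g4
  generalize hp : 0 + s.length = p at g3 g4
  have hpq : p + 2 ≤ q := by
    simp only [List.length_append, List.length_cons] at hq
    omega
  obtain ⟨k, c2, c3, c4⟩ : ∃ k, k ≤ K ∧ t k ≤ p ∧ p < t (k + 1) := by
    refine ⟨Nat.findGreatest (fun i => t i ≤ p) K, Nat.findGreatest_le K,
      Nat.findGreatest_spec (P := fun i => t i ≤ p) (Nat.zero_le K) (by omega), ?_⟩
    by_contra hc
    push Not at hc
    have a1 := Nat.findGreatest_le (P := fun i => t i ≤ p) K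
    rcases eq_or_lt_of_le a1 with a1 | a1
    · have := ht K
      rw [a1] at hc
      omega
    · have := Nat.le_findGreatest (P := fun i => t i ≤ p) (m := Nat.findGreatest _ K + 1) (n := K)
        a1 hc
      omega
  have hex : ∃ l, k ≤ l ∧ q ≤ t (l + 1) + 2 * n := ⟨K, c2, by have := ht K; omega⟩
  obtain ⟨l1, l2⟩ := Nat.find_spec hex
  have l3 : Nat.find hex ≤ K := Nat.find_min' hex ⟨c2, by have := ht K; omega⟩
  have l4 : k = Nat.find hex ∨ t (Nat.find hex) + 2 * n < q := by
    rcases eq_or_lt_of_le l1 with l1 | l1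
    · exact Or.inl l1
    · have := Nat.find_min hex (m := Nat.find hex - 1) (by omega)
      rw [Nat.sub_add_cancel (by omega)] at this
      right
      omega
  generalize Nat.find hex = l at l1 l2 l3 l4
  have r1 := lift hP hn ht hd hag hL hR hc p q k l g4 (by simpa using hn1) l1 l3 c3 g3 l2
    (by simp only [List.length_singleton]; omega)
  have := hd l1
  rw [seg_cons ys (by omega : p < q)] at g4
  simp only [List.cons.injEq] at g4
  have e2 := seg_cons y (by omega : p + d k < q + d l)
  rw [← hag k c2 p c3 (by omega), ← g4.1] at e2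
  refine hy (p + d k) (q + d l) [] c (seg y (p + d k + 1) (q + d l)) [] (by simpa using e2) ?_
    (e2 ▸ r1)
  rw [← List.length_pos_iff, length_seg]
  omega

end Pool.Agent.P.MP_676b89_lc
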