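import Pool.Agent.P.MP_676b89_lc.Lift

/-!
The pumping property makes the dual words unavoidable.
-/

namespace Pool.Agent.P.MP_676b89_lc

variable {σ : Type*} {P : Set (σ × List σ)}

/-- Position `j` is the left (`true`) or right (`false`) end of an interval of length at least two
derived from the letter `g`. -/
def Wt (P : Set (σ × List σ)) (y : ℕ → σ) (j : ℕ) (g : σ) (b : Bool) : Prop :=
  ∃ p q, p + 2 ≤ q ∧ DL P [g] (seg y p q) ∧ (b = true → p = j) ∧ (b = false → q = j)

theorem exists_enum (s : Finset ℕ) (K : ℕ) (h : K < s.card) :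
    ∃ β : ℕ → ℕ, (∀ k, k ≤ K → β k ∈ s) ∧ ∀ k, k < K → β k < β (k + 1) := by
  refine ⟨fun k => if hk : k < s.card then s.orderEmbOfFin rfl ⟨k, hk⟩ else 0, fun k hk => ?_,
    fun k hk => ?_⟩
  · simp only [dif_pos (show k < s.card by omega)]
    exact Finset.orderEmbOfFin_mem _ _ _
  · simp only [dif_pos (show k < s.card by omega), dif_pos (show k + 1 < s.card by omega)]
    exact (s.orderEmbOfFin rfl).strictMono (by simp)

theorem pw_seg {ys : ℕ → σ} {τ : ℕ} (h : ∀ i, ys (i + τ) = ys i) (k : ℕ) :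
    pw (seg ys 0 τ) k = seg ys 0 (k * τ) := by
  induction k with
  | zero => simp
  | succ k ih =>
    rw [pw_succ, ih, seg_congr (y := ys) (y' := ys) (d := τ) (p := 0) (q := k * τ)
      (fun i _ _ => (h i).symm), Nat.zero_add, seg_append ys (Nat.zero_le _) (by omega),
      Nat.succ_mul]

theorem no_recurrent [Finite σ] (hP : Prop' P) (hH : HLeft P) {n : ℕ} (hn1 : 1 ≤ n)
    (hn : ∀ r ∈ P, r.2.length ≤ n) {y : ℕ → σ} (hL : ∀ p q, LeftFree P (seg y p q))
    (hR : ∀ p q, RightFree P (seg y p q))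
    (hNR : ∀ M, ∃ N, ∀ A s t, Til P M A (seg y s t) → DualFree P A → A.length ≤ N)
    (hrec : ∀ T, ∃ M, ∀ e, ∃ e', e ≤ e' ∧ e' ≤ e + M ∧ Occ y T e') : False := by
  classical
  have := Fintype.ofFinite σ
  let Wit : ℕ → Finset (Fin (2 * n + 1) × σ × Bool) := fun j =>
    Finset.univ.filter (fun ω => Wt P y (j + ω.1) ω.2.1 ω.2.2)
  obtain ⟨_, ⟨j0, rfl⟩, hmax⟩ := Set.exists_max_image (Set.range Wit) Finset.card
    (Set.toFinite _) (Set.range_nonempty _)
  have hch : ∀ ω : Fin (2 * n + 1) × σ × Bool, ∃ p q, ω ∈ Wit j0 → p + 2 ≤ q ∧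
      DL P [ω.2.1] (seg y p q) ∧ (ω.2.2 = true → p = j0 + ω.1) ∧ (ω.2.2 = false → q = j0 + ω.1) := by
    intro ω
    by_cases h : ω ∈ Wit j0
    · obtain ⟨p, q, hpq⟩ := (Finset.mem_filter.mp h).2
      exact ⟨p, q, fun _ => hpq⟩
    · exact ⟨0, 0, fun h' => absurd h' h⟩
  choose p q hpq using hch
  obtain ⟨T, hT1, hT2⟩ : ∃ T, j0 + 2 * n + 1 ≤ T ∧ ∀ ω, q ω ≤ T :=
    ⟨j0 + 2 * n + 1 + Finset.univ.sup q, by omega, fun ω =>
      (Finset.le_sup (f := q) (Finset.mem_univ ω)).trans (by omega)⟩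
  have hW : ∀ e, Occ y T e → Wit (j0 + e) = Wit j0 := by
    intro e he
    refine (Finset.eq_of_subset_of_card_le (fun ω hω => ?_) (hmax _ ⟨_, rfl⟩)).symm
    obtain ⟨h1, h2, h3, h4⟩ := hpq ω hω
    refine Finset.mem_filter.mpr ⟨Finset.mem_univ _, p ω + e, q ω + e, by omega, ?_, fun h => ?_,
      fun h => ?_⟩
    · rwa [← he.seg_eq (hT2 ω)]
    · have := h3 h
      omega
    · have := h4 h
      omega
  obtain ⟨M, hM⟩ := chain_all (T := T) (Wit j0) hP hL hR hNR (hrec T) (fun ω => ω.2.1) p q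
    (fun ω hω => ⟨(hpq ω hω).1, hT2 ω, (hpq ω hω).2.1⟩)
  have hH' : ∀ u : List σ, ∃ k, u ≠ [] → ¬ LeftFree P (pw u k) := by
    intro u
    by_cases hu : u = []
    · exact ⟨0, fun h => absurd hu h⟩
    · obtain ⟨k, hk⟩ := hH u hu
      exact ⟨k, fun _ => hk⟩
  choose κ hκ using hH'
  set Z := (List.finite_length_le σ M).toFinset with hZ
  set K0 := Z.sup κ with hK0
  set L := Z.card * K0 + 1 with hLdef
  obtain ⟨e, he⟩ := hM (2 * L)
  obtain ⟨W, hWZ, hfib⟩ := Finset.exists_lt_card_fiber_of_mul_lt_card_of_maps_to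
    (s := Finset.range L) (t := Z) (f := fun i => seg y (j0 + e (2 * i)) (j0 + e (2 * i + 1)))
    (n := K0) (fun i hi => by
      have := he.hi (2 * i) (by have := Finset.mem_range.mp hi; omega)
      simp only [hZ, Set.Finite.mem_toFinset, Set.mem_ofPred_eq, length_seg]
      omega) (by simp [hLdef])
  have hK : κ W ≤ K0 := Finset.le_sup (f := κ) hWZ
  set K := κ W with hKdef
  obtain ⟨β, hβ1, hβ2⟩ := exists_enum _ K (lt_of_le_of_lt hK hfib)
  have hβL : ∀ k, k ≤ K → β k < L := fun k hk =>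
    Finset.mem_range.mp (Finset.mem_filter.mp (hβ1 k hk)).1
  have hβW : ∀ k, k ≤ K → seg y (j0 + e (2 * β k)) (j0 + e (2 * β k + 1)) = W := fun k hk =>
    (Finset.mem_filter.mp (hβ1 k hk)).2
  set τ := W.length with hτ
  have hτ1 : ∀ k, k ≤ K → e (2 * β k + 1) = e (2 * β k) + τ ∧ T ≤ τ := by
    intro k hk
    have h1 := congrArg List.length (hβW k hk)
    have h2 := he.lo (2 * β k) (by have := hβL k hk; omega)
    rw [length_seg] at h1
    omega
  have hτ2 := (hτ1 0 (Nat.zero_le _)).2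
  have hgap : ∀ k, k + 1 ≤ K → e (2 * β k + 1) + T ≤ e (2 * β (k + 1)) := by
    intro k hk
    have h1 := hβ2 k hk
    have h2 := hβL (k + 1) hk
    exact he.lo' (by omega) (by omega)
  have hlow : ∀ k, k ≤ K → k * τ ≤ e (2 * β k) := by
    intro k
    induction k with
    | zero => simp
    | succ k ih =>
      intro hk
      have h1 := ih (by omega)
      have h2 := hgap k hk
      have h3 := hτ1 k (by omega)
      rw [Nat.succ_mul]
      omega
  let ys : ℕ → σ := fun i => y (j0 + e (2 * β 0) + i % τ)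
  let d : ℕ → ℕ := fun k => j0 + e (2 * β (min k K)) - min k K * τ
  have hd1 : ∀ k, k ≤ K → d k + k * τ = j0 + e (2 * β k) := by
    intro k hk
    have := hlow k hk
    simp only [d, min_eq_left hk]
    omega
  have hd : Monotone d := by
    refine monotone_nat_of_le_succ (fun k => ?_)
    by_cases hk : k + 1 ≤ K
    · have h1 := hd1 k (by omega)
      have h2 := hd1 (k + 1) hk
      have h3 := hgap k hk
      have h4 := hτ1 k (by omega)
      rw [Nat.succ_mul] at h2
      omega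
    · simp only [d, min_eq_right (show K ≤ k by omega), min_eq_right (show K ≤ k + 1 by omega)]
      exact le_rfl
  have occ0 : ∀ k, k ≤ K → Occ y T (e (2 * β k)) := fun k hk =>
    he.occ _ (by have := hβL k hk; omega)
  have occ1 : ∀ k, k ≤ K → Occ y T (e (2 * β k + 1)) := fun k hk =>
    he.occ _ (by have := hβL k hk; omega)
  have link : ∀ k, k + 1 ≤ K → ∀ ω ∈ Wit j0,
      Link P y ω.2.1 (p ω) (q ω) (e (2 * β k + 1)) (e (2 * β (k + 1))) := by
    intro k hk
    have h1 := hβ2 k hk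
    have h2 := hβL (k + 1) hk
    exact he.rel _ _ (by omega) (by omega)
  have hys : W = seg ys 0 τ := by
    rw [← hβW 0 (Nat.zero_le _), (hτ1 0 (Nat.zero_le _)).1,
      seg_congr (y := y) (y' := ys) (d := j0 + e (2 * β 0)) (p := 0) (q := τ) (fun i _ hi => by
        simp only [ys, Nat.mod_eq_of_lt hi]
        rw [Nat.add_comm])]
    congr 1 <;> omega
  have hWne : W ≠ [] := by
    rw [← List.length_pos_iff]
    omega
  apply hκ W hWne
  rw [← hKdef, hys, pw_seg (fun i => by simp [ys])]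
  have hs : ∀ k, (k + 1) * τ = k * τ + τ := fun k => Nat.succ_mul k τ
  refine lift_left hP hn1 hn (y := y) (t := fun k => k * τ) (d := d) (by simp)
    (fun k => by have := hs k; omega) hd ?_ ?_ ?_ hL
  · intro k hk x h1 h2
    have e1 := hd1 k hk
    have e2 := (hτ1 k hk).1
    have e0 := hs k
    by_cases hx : x < k * τ + τ
    · obtain ⟨r, rfl⟩ := Nat.exists_eq_add_of_le h1
      have hr : r < τ := by omega
      have := seg_pointwise (y := y) (y' := y) (p := j0 + e (2 * β 0)) (p' := j0 + e (2 * β k))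
        (t := τ) (by
          rw [Nat.add_assoc, Nat.add_assoc, ← e2, ← (hτ1 0 (Nat.zero_le _)).1, hβW k hk,
            hβW 0 (Nat.zero_le _)]) hr
      simp only [ys, Nat.mul_add_mod_self_right, Nat.mod_eq_of_lt hr]
      rw [this]
      congr 1
      omega
    · obtain ⟨r, rfl⟩ := Nat.exists_eq_add_of_le (not_lt.mp hx)
      have hr : r < τ := by omega
      have a1 := occ0 0 (Nat.zero_le _) (j0 + r) (by omega)
      have a2 := occ1 k hk (j0 + r) (by omega)
      simp only [ys, ← hs, Nat.mul_add_mod_self_right, Nat.mod_eq_of_lt hr]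
      rw [Nat.add_right_comm, a1, ← a2]
      congr 1
      omega
  · intro k hk b h1 h2 g s h3 h4
    obtain ⟨r, rfl⟩ := Nat.exists_eq_add_of_le h1
    have e1 := hd1 k (by omega)
    have e2 := (hτ1 k (by omega)).1
    have e3 := hd1 (k + 1) hk
    have e4 := hgap k hk
    have e0 := hs k
    have hω : ((⟨r, by omega⟩ : Fin (2 * n + 1)), g, true) ∈ Wit j0 := by
      rw [← hW _ (occ0 (k + 1) hk)]
      exact Finset.mem_filter.mpr ⟨Finset.mem_univ _, _, s, h3, h4, fun _ => by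
        simp only
        omega, by simp⟩
    obtain ⟨f1, f2, f3, -⟩ := hpq _ hω
    have f4 := f3 rfl
    have f5 := hT2 ((⟨r, by omega⟩ : Fin (2 * n + 1)), g, true)
    simp only at f4
    rw [(occ1 k (by omega)).seg_eq f5] at f2
    have q1 : (k + 1) * τ + r + d k =
        p ((⟨r, by omega⟩ : Fin (2 * n + 1)), g, true) + e (2 * β k + 1) := by omega
    have q2 : (k + 1) * τ + r + d (k + 1) =
        p ((⟨r, by omega⟩ : Fin (2 * n + 1)), g, true) + e (2 * β (k + 1)) := by omega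
    rw [q2] at h4
    rw [q1]
    exact (link k hk _ hω).hull (by omega) (by omega) (by omega) f2 h4
  · intro k hk b h1 h2 g s h3 h4
    obtain ⟨r, rfl⟩ := Nat.exists_eq_add_of_le h1
    have e1 := hd1 k (by omega)
    have e2 := (hτ1 k (by omega)).1
    have e3 := hd1 (k + 1) hk
    have e4 := hgap k hk
    have e0 := hs k
    have hω : ((⟨r, by omega⟩ : Fin (2 * n + 1)), g, false) ∈ Wit j0 := by
      rw [← hW _ (occ1 k (by omega))]
      exact Finset.mem_filter.mpr ⟨Finset.mem_univ _, s, _, h3, h4, by simp, fun _ => by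
        simp only
        omega⟩
    obtain ⟨f1, f2, -, f3⟩ := hpq _ hω
    have f4 := f3 rfl
    have f5 := hT2 ((⟨r, by omega⟩ : Fin (2 * n + 1)), g, false)
    simp only at f4
    rw [(occ0 (k + 1) hk).seg_eq f5] at f2
    have q1 : (k + 1) * τ + r + d k =
        q ((⟨r, by omega⟩ : Fin (2 * n + 1)), g, false) + e (2 * β k + 1) := by omega
    have q2 : (k + 1) * τ + r + d (k + 1) =
        q ((⟨r, by omega⟩ : Fin (2 * n + 1)), g, false) + e (2 * β (k + 1)) := by omega
    rw [q1] at h4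
    rw [q2]
    exact (link k hk _ hω).hull (by omega) (by omega) (by omega) h4 f2

theorem dual_unavoidable [Finite σ] (hP : Prop' P) (hH : HLeft P) {n : ℕ} (hn1 : 1 ≤ n)
    (hn : ∀ r ∈ P, r.2.length ≤ n) : ∃ N, ∀ w, DualFree P w → w.length < N := by
  by_contra hcon
  push Not at hcon
  have fc : FC {w | DualFree P w} := fun s w t hw => DualFree.factor hw
  obtain ⟨A, -, a1, a2, a3, amin⟩ := exists_min_lang (AC P)
    (fun c hc u w hd hw L hL => hc L hL u w hd (hw L hL)) (DualFree P) Set.univ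
    (fun _ _ _ _ => trivial) (fun _ _ _ _ => trivial) (fun N => by
      obtain ⟨w, h1, h2⟩ := fc.exact_length hcon N
      exact ⟨w, trivial, h1, h2⟩)
  obtain ⟨y, hy, hrec⟩ := exists_recurrent {w | w ∈ A ∧ LeftFree P w ∧ RightFree P w}
    (fun s w t hw => ⟨a1 s w t hw.1, hw.2.1.factor, hw.2.2.factor⟩)
    (fun N => by
      obtain ⟨w, h1, h2, h3, h4⟩ := exists_long_mixed_free hH a1 a2 a3 N
      exact ⟨w, ⟨h1, h2, h3⟩, h4⟩)
  refine no_recurrent hP hH hn1 hn (fun p q => (hy p q).2.1) (fun p q => (hy p q).2.2)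
    (fun M => ?_) hrec
  have hF : ∀ p q, seg y p q ∈ {w | ∃ p q, p ≤ q ∧ w = seg y p q} := by
    intro p q
    rcases le_total p q with h | h
    · exact ⟨p, q, h, rfl⟩
    · exact ⟨p, p, le_rfl, by rw [seg_of_le y h, seg_self]⟩
  obtain ⟨N, hN⟩ := nonreducible hP (F := {w | ∃ p q, p ≤ q ∧ w = seg y p q}) a1 a2 amin
    (by
      rintro _ ⟨p, q, -, rfl⟩
      exact (hy p q).1)
    (by
      rintro s w t ⟨p, q, h, e⟩
      obtain ⟨g1, g2, -⟩ := seg_eq_append y h e.symm
      obtain ⟨-, -, g3⟩ := seg_eq_append y (Nat.le_add_right _ _) g2.symm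
      rw [g3]
      exact hF _ _)
    ⟨0, 0, le_rfl, by simp⟩
    (by
      rintro _ ⟨p, q, h, rfl⟩
      exact ⟨y q, p, q + 1, by omega, (seg_snoc y h).symm⟩)
    (by
      rintro _ ⟨p, q, -, rfl⟩
      exact (hy p q).2.1) (M + 1)
  refine ⟨N, fun u s t h1 h2 => hN u (a2 _ _ h1.1 (hy s t).1) h2 (fun x m x' e hl => ?_)⟩
  obtain ⟨X, K, X', g1, g2⟩ := h1.2 x m x' e (Or.inl hl)
  exact ⟨X, K, X', g1 ▸ hF s t, g2⟩

end Pool.Agent.P.MP_676b89_lc
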