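import Pool.Agent.P.MP_676b89_lc.Conv

/-!
Non-reducibility: in a minimal language, ancestors without dual factors whose long factors all
expand properly have bounded length.
-/

namespace Pool.Agent.P.MP_676b89_lc

variable {σ : Type*} {P : Set (σ × List σ)}

/-- The middle part `m` has arbitrarily long expansions inside `F`, in its context. -/
def Unb (P : Set (σ × List σ)) (F : Set (List σ)) (x m x' : List σ) : Prop :=
  ∀ N, ∃ X M X', X ++ M ++ X' ∈ F ∧ DL P x X ∧ DL P m M ∧ DL P x' X' ∧ N ≤ M.length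

/-- Every factor of `w` of length at least `l` expands properly inside `F`, in its context. -/
def Red (P : Set (σ × List σ)) (F : Set (List σ)) (l : ℕ) (w : List σ) : Prop :=
  ∀ x m x', w = x ++ m ++ x' → l ≤ m.length →
    ∃ X M X', X ++ M ++ X' ∈ F ∧ DL P x X ∧ DL P m M ∧ DL P x' X' ∧ m.length < M.length

theorem Red.factor {F : Set (List σ)} (hF : FC F) {l : ℕ} {s w t : List σ}
    (h : Red P F l (s ++ w ++ t)) : Red P F l w := by
  rintro x m x' rfl hl
  obtain ⟨X, M, X', h1, h2, h3, h4, h5⟩ := h (s ++ x) m (x' ++ t) (by simp) hl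
  obtain ⟨S, X1, rfl, -, g2⟩ := h2.split
  obtain ⟨X2, T, rfl, g3, -⟩ := h4.split
  exact ⟨X1, M, X2, hF S _ T (by simpa using h1), g2, h3, g3, h5⟩

theorem Unb.of_right {F : Set (List σ)} (hF : FC F) {x m x' t : List σ}
    (h : Unb P F x m (x' ++ t)) : Unb P F x m x' := by
  intro N
  obtain ⟨X, M, X', h1, h2, h3, h4, h5⟩ := h N
  obtain ⟨X2, T, rfl, g3, -⟩ := h4.split
  exact ⟨X, M, X2, hF [] _ T (by simpa using h1), h2, h3, g3, h5⟩

theorem Unb.of_exp {F : Set (List σ)} {x m x' X M X' : List σ} (h : Unb P F X M X')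
    (h1 : DL P x X) (h2 : DL P m M) (h3 : DL P x' X') : Unb P F x m x' := by
  intro N
  obtain ⟨Y, K, Y', g1, g2, g3, g4, g5⟩ := h N
  exact ⟨Y, K, Y', g1, h1.trans g2, h2.trans g3, h3.trans g4, g5⟩

theorem Unb.snoc {F : Set (List σ)} {x m x' : List σ} {c : σ} (h : Unb P F x (m ++ [c]) x') :
    Unb P F x m (c :: x') ∨ Unb P F (x ++ m) [c] x' := by
  by_contra hcon
  push Not at hcon
  obtain ⟨h1, h2⟩ := hcon
  unfold Unb at h1 h2
  push Not at h1 h2
  obtain ⟨N1, h1⟩ := h1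
  obtain ⟨N2, h2⟩ := h2
  obtain ⟨X, M, X', g1, g2, g3, g4, g5⟩ := h (N1 + N2)
  obtain ⟨M1, C, rfl, g6, g7⟩ := g3.split
  have a1 := h1 X M1 (C ++ X') (by simpa using g1) g2 g6 (g7.cons g4)
  have a2 := h2 (X ++ M1) C X' (by simpa using g1) (g2.append g6) g7 g4
  simp only [List.length_append] at g5
  omega

theorem not_all_unb [Finite σ] (hP : Prop' P) {F : Set (List σ)} (hF : FC F) (hnil : [] ∈ F)
    (hext : ∀ w ∈ F, ∃ a, w ++ [a] ∈ F) (hL : ∀ w ∈ F, LeftFree P w) (l : ℕ)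
    (h : ∀ x m x', x ++ m ++ x' ∈ F → l ≤ m.length → Unb P F x m x') : False := by
  classical
  let Q : ℕ → Prop := fun e => ∃ x m x', x ++ m ++ x' ∈ F ∧ m.length = e ∧ ¬ Unb P F x m x'
  have Q0 : Q 0 := by
    refine ⟨[], [], [], by simpa using hnil, rfl, fun hu => ?_⟩
    obtain ⟨X, M, X', -, -, g3, -, g5⟩ := hu 1
    rw [g3.nil_left] at g5
    simp at g5
  have Qle : ∀ e, Q e → e ≤ Nat.findGreatest Q l := by
    rintro e ⟨x, m, x', g1, g2, g3⟩
    have : e ≤ l := by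
      by_contra hc
      exact g3 (h x m x' g1 (by omega))
    exact Nat.le_findGreatest this ⟨x, m, x', g1, g2, g3⟩
  have Qe : Q (Nat.findGreatest Q l) := Nat.findGreatest_spec (Nat.zero_le l) Q0
  set e := Nat.findGreatest Q l
  have key : ∀ j, ∃ S : Finset σ, S.card = j ∧ ∃ x m c x', x ++ m ++ c :: x' ∈ F ∧
      m.length = e ∧ ¬ Unb P F x m (c :: x') ∧
      ∀ a ∈ S, ∃ z t, z ≠ [] ∧ x' = z ++ t ∧ DL P [a] (c :: z) := by
    intro j
    induction j with
    | zero =>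
      obtain ⟨x, m, x', g1, g2, g3⟩ := Qe
      obtain ⟨a, ha⟩ := hext _ g1
      have g4 : ¬ Unb P F x m (x' ++ [a]) := fun hu => g3 (hu.of_right hF)
      obtain ⟨c, x'', hc⟩ := List.exists_cons_of_ne_nil (l := x' ++ [a]) (by simp)
      refine ⟨∅, rfl, x, m, c, x'', ?_, g2, by rwa [← hc], by simp⟩
      rw [← hc]
      simpa using ha
    | succ j ih =>
      obtain ⟨S, hS, x, m, c, x', g1, g2, g3, g4⟩ := ih
      have hc : c ∉ S := by
        intro hc
        obtain ⟨z, t, hz, rfl, hd⟩ := g4 c hc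
        exact hL _ g1 (x ++ m) c z t (by simp) hz hd
      have hu : Unb P F (x ++ m) [c] x' := by
        by_contra hu
        have : Q (e + 1) := ⟨x, m ++ [c], x', by simpa using g1, by simp [g2], fun h' => by
          rcases h'.snoc with h' | h'
          · exact g3 h'
          · exact hu h'⟩
        have := Qle _ this
        omega
      obtain ⟨Y, C, X', f1, f2, f3, f4, f5⟩ := hu 2
      obtain ⟨X, M, rfl, f6, f7⟩ := f2.split
      obtain ⟨c', z', rfl, hz'⟩ : ∃ c' z', C = c' :: z' ∧ z' ≠ [] := by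
        match C, f5 with
        | c' :: d :: z', _ => exact ⟨c', d :: z', rfl, by simp⟩
      have f8 : ¬ Unb P F X M (c' :: (z' ++ X')) := fun h' => g3 (h'.of_exp f6 f7 (f3.cons f4))
      have f9 : X ++ M ++ c' :: (z' ++ X') ∈ F := by simpa using f1
      have f10 : M.length = e := by
        have a1 := Qle _ ⟨X, M, _, f9, rfl, f8⟩
        have a2 := f7.length_le hP
        omega
      refine ⟨insert c S, by rw [Finset.card_insert_of_notMem hc, hS], X, M, c', z' ++ X', f9, f10,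
        f8, fun a ha => ?_⟩
      rcases Finset.mem_insert.mp ha with rfl | ha
      · exact ⟨z', X', hz', rfl, f3⟩
      · obtain ⟨z, t, -, rfl, hd⟩ := g4 a ha
        obtain ⟨Z, T, rfl, b1, -⟩ := f4.split
        exact ⟨z' ++ Z, T, by simp [hz'], by simp, hd.trans (f3.cons b1)⟩
  have := Fintype.ofFinite σ
  obtain ⟨S, hS, -⟩ := key (Fintype.card σ + 1)
  have := S.card_le_univ
  omega

theorem nonreducible [Finite σ] (hP : Prop' P) {A F : Set (List σ)} (a1 : FC A) (a2 : AC P A)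
    (amin : ∀ B, B ⊆ A → FC B → AC P B → (∀ N, ∃ w ∈ B, DualFree P w ∧ w.length = N) → A ⊆ B)
    (hFA : F ⊆ A) (hF : FC F) (hnil : [] ∈ F)
    (hext : ∀ w ∈ F, ∃ a, w ++ [a] ∈ F) (hL : ∀ w ∈ F, LeftFree P w) (l : ℕ) :
    ∃ N, ∀ w ∈ A, DualFree P w → Red P F l w → w.length ≤ N := by
  by_contra hcon
  push Not at hcon
  have fc : FC {w | w ∈ A ∧ DualFree P w ∧ Red P F l w} :=
    fun s w t hw => ⟨a1 s w t hw.1, hw.2.1.factor, hw.2.2.factor hF⟩
  have hsub := amin {u | ∃ w, (w ∈ A ∧ DualFree P w ∧ Red P F l w) ∧ DL P u w}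
    (by
      rintro u ⟨w, hw, hd⟩
      exact a2 u w hd hw.1)
    (by
      rintro s u t ⟨w, hw, hd⟩
      obtain ⟨w1, w2, w3, rfl, -, d2, -⟩ := hd.split3
      exact ⟨w2, fc w1 w2 w3 hw, d2⟩)
    (by
      rintro u v hd ⟨w, hw, hd'⟩
      exact ⟨w, hw, hd.trans hd'⟩)
    (fun N => by
      obtain ⟨w, hw, hl⟩ := fc.exact_length (fun N => by
        obtain ⟨w, h1, h2, h3, h4⟩ := hcon N
        exact ⟨w, ⟨h1, h2, h3⟩, h4.le⟩) N
      exact ⟨w, ⟨w, hw, DL.refl w⟩, hw.2.1, hl⟩)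
  have step : ∀ x m x', x ++ m ++ x' ∈ A → l ≤ m.length →
      ∃ X M X', X ++ M ++ X' ∈ F ∧ DL P x X ∧ DL P m M ∧ DL P x' X' ∧ m.length < M.length := by
    intro x m x' h1 h2
    obtain ⟨w, hw, hd⟩ := hsub h1
    obtain ⟨w1, w2, w3, rfl, d1, d2, d3⟩ := hd.split3
    have := d2.length_le hP
    obtain ⟨X, M, X', g1, g2, g3, g4, g5⟩ := hw.2.2 w1 w2 w3 rfl (by omega)
    exact ⟨X, M, X', g1, d1.trans g2, d2.trans g3, d3.trans g4, by omega⟩
  refine not_all_unb hP hF hnil hext hL l (fun x m x' h1 h2 N => ?_)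
  induction N with
  | zero => exact ⟨x, m, x', h1, DL.refl _, DL.refl _, DL.refl _, Nat.zero_le _⟩
  | succ N ih =>
    obtain ⟨X, M, X', g1, g2, g3, g4, g5⟩ := ih
    have := g3.length_le hP
    obtain ⟨Y, K, Y', f1, f2, f3, f4, f5⟩ := step X M X' (hFA g1) (by omega)
    exact ⟨Y, K, Y', f1, g2.trans f2, g3.trans f3, g4.trans f4, by omega⟩

end Pool.Agent.P.MP_676b89_lc
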