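import Pool.Agent.P.MP_676b89_lc.Basic

/-!
From the weakest pumping property to the strongest one.
-/

namespace Pool.Agent.P.MP_676b89_lc

variable {σ : Type*} {P : Set (σ × List σ)}

/-- Some power of every nonempty word has a factor `c z`, `z` nonempty, `c ⇒* c z`. -/
def HLeft (P : Set (σ × List σ)) : Prop :=
  ∀ u : List σ, u ≠ [] → ∃ k, ¬ LeftFree P (pw u k)

theorem first_long (hP : Prop' P) {u w : List σ} (h : DL P u w) (t : List σ) (e : w = u ++ t)
    (ht : t ≠ []) : ¬ LeftFree P w := by
  induction u generalizing w with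
  | nil =>
    have := h.nil_left
    subst this
    simp at e
    exact absurd e ht
  | cons a u ih =>
    obtain ⟨w1, w2, rfl, h1, h2⟩ := h.split_cons
    have hne := h1.ne_nil hP (by simp)
    obtain ⟨b, z, rfl⟩ := List.exists_cons_of_ne_nil hne
    simp only [List.cons_append, List.cons.injEq] at e
    obtain ⟨rfl, e⟩ := e
    by_cases hz : z = []
    · subst hz
      simp only [List.nil_append] at e
      intro hf
      exact ih h2 e (LeftFree.factor (s := [b]) (t := []) (by simpa using hf))
    · intro hf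
      exact hf [] b z w2 (by simp) hz h1

theorem hleft_of_a (hP : Prop' P)
    (h : ∀ u : List σ, u ≠ [] → ∃ k l, k < l ∧ DL P (pw u k) (pw u l)) : HLeft P := by
  intro u hu
  obtain ⟨k, l, hkl, hd⟩ := h u hu
  obtain ⟨j, rfl⟩ := Nat.exists_eq_add_of_lt hkl
  refine ⟨k + j + 1, first_long hP hd (pw u (j + 1)) (by rw [Nat.add_assoc, pw_add]) ?_⟩
  rw [pw_succ]
  simp [hu]

theorem pw_locate {u : List σ} {k : ℕ} {s r : List σ} {c : σ} (e : pw u k = s ++ c :: r) :
    ∃ u1 u2 i j, u = u1 ++ c :: u2 ∧ s = pw u i ++ u1 ∧ r = u2 ++ pw u j := by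
  induction k generalizing s with
  | zero => simp at e
  | succ k ih =>
    rw [pw_succ, List.append_eq_append_iff] at e
    rcases e with ⟨a, rfl, e⟩ | ⟨a, rfl, e⟩
    · obtain ⟨u1, u2, i, j, h1, h2, h3⟩ := ih e
      refine ⟨u1, u2, i + 1, j, h1, ?_, h3⟩
      rw [pw_succ, h2, List.append_assoc]
    · cases a with
      | nil =>
        obtain ⟨u1, u2, i, j, h1, h2, h3⟩ := ih (s := []) (by simpa using e.symm)
        refine ⟨u1, u2, i + 1, j, h1, ?_, h3⟩
        rw [pw_succ, List.append_assoc, List.append_assoc, List.nil_append, ← h2]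
        simp
      | cons b a =>
        simp only [List.cons_append, List.cons.injEq] at e
        obtain ⟨rfl, rfl⟩ := e
        exact ⟨s, a, 0, k, rfl, by simp, rfl⟩

theorem pw_trim {v : List σ} (hv : v ≠ []) {j : ℕ} {A ρ : List σ} (e : pw v j = A ++ ρ) :
    ∃ j' ρ', pw v j' = A ++ ρ' ∧ ρ'.length < v.length := by
  induction j generalizing ρ with
  | zero =>
    have h0 : 0 < v.length := List.length_pos_iff.mpr hv
    have : ρ = [] := by
      simp at e
      exact e.2
    exact ⟨0, ρ, e, by simp [this, h0]⟩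
  | succ j ih =>
    by_cases h : ρ.length < v.length
    · exact ⟨j + 1, ρ, e, h⟩
    · rw [pw_succ', List.append_eq_append_iff] at e
      rcases e with ⟨a, e1, e2⟩ | ⟨a, e1, e2⟩
      · have : a = [] := by
          have := congrArg List.length e2
          simp only [List.length_append] at this
          exact List.eq_nil_of_length_eq_zero (by omega)
        subst this
        exact ih (ρ := []) (by simpa using e1.symm)
      · exact ih e1

/-- The strongest pumping property for one word. -/
def PC (P : Set (σ × List σ)) (u : List σ) : Prop :=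
  ∃ w1 g w2 k, u = w1 ++ g :: w2 ∧ 1 ≤ k ∧ DL P [g] (pw (g :: w2 ++ w1) k ++ [g])

theorem PC.rot {a b : List σ} (h : PC P (b ++ a)) : PC P (a ++ b) := by
  obtain ⟨v1, g, v2, k, e, hk, hd⟩ := h
  rw [List.append_eq_append_iff] at e
  rcases e with ⟨m, rfl, rfl⟩ | ⟨m, rfl, e⟩
  · exact ⟨m, g, v2 ++ b, k, by simp, hk, by simpa using hd⟩
  · cases m with
    | nil =>
      simp only [List.nil_append] at e
      subst e
      exact ⟨[], g, v2 ++ v1, k, by simp, hk, by simpa using hd⟩
    | cons b m =>
      simp only [List.cons_append, List.cons.injEq] at e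
      obtain ⟨rfl, rfl⟩ := e
      exact ⟨a ++ v1, g, m, k, by simp, hk, by simpa using hd⟩

theorem pc_of_hleft (h : HLeft P) (u : List σ) (hu : u ≠ []) : PC P u := by
  induction hm : u.length using Nat.strong_induction_on generalizing u with
  | _ m ih =>
  obtain ⟨k, hk⟩ := h u hu
  unfold LeftFree at hk
  push Not at hk
  obtain ⟨s, c, z, t, e, hz, hd⟩ := hk
  obtain ⟨u1, u2, i, j, rfl, -, h3⟩ := pw_locate (s := s) (c := c) (r := z ++ t) (by simpa using e)
  apply PC.rot
  set v := c :: u2 ++ u1 with hv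
  have hvl : v.length = m := by
    rw [← hm, hv]; simp; omega
  have e1 : pw v (j + 1) = (c :: z) ++ (t ++ u1) := by
    have := pw_rot (c :: u2) u1 j
    rw [pw_succ', hv, ← List.append_assoc, ← this]
    simp only [List.cons_append, List.cons.injEq, true_and]
    rw [← List.append_assoc z, h3]
  obtain ⟨j', ρ, e2, hρ⟩ := pw_trim (by simp [hv]) e1
  obtain ⟨j', rfl⟩ : ∃ j'', j' = j'' + 1 := by
    cases j' with
    | zero => simp at e2
    | succ j'' => exact ⟨j'', rfl⟩
  by_cases hl : ρ.length + 1 = m
  · have e3 : pw v j' ++ [c] ++ (u2 ++ u1) = (c :: z) ++ ρ := by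
      rw [← e2, pw_succ', hv]; simp
    have e4 := (List.append_inj' e3 (by
      rw [hv] at hvl
      simp at hvl ⊢
      omega)).1
    refine ⟨[], c, u2 ++ u1, j', by simp [hv], ?_, ?_⟩
    · rcases Nat.eq_zero_or_pos j' with rfl | h0
      · simp at e4
        exact absurd e4 hz
      · exact h0
    · have : c :: (u2 ++ u1) ++ [] = v := by simp [hv]
      rw [this, e4]
      exact hd
  · obtain ⟨a1, g, a2, i, e3, hi, hg⟩ := ih (ρ.length + 1) (by omega) (c :: ρ) (by simp) (by simp)
    cases a1 with
    | nil =>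
      simp only [List.nil_append, List.cons.injEq] at e3
      obtain ⟨rfl, rfl⟩ := e3
      have d1 : DL P (c :: ρ ++ []) (pw v (j' + 1)) := by
        rw [e2, List.append_nil]
        exact hd.cons (DL.refl _)
      have d2 := (d1.pw i).append (DL.refl [c])
      rw [pw_mul] at d2
      refine ⟨[], c, u2 ++ u1, i * (j' + 1), by simp [hv], Nat.mul_pos hi (by omega), ?_⟩
      have : c :: (u2 ++ u1) ++ [] = v := by simp [hv]
      rw [this]
      exact hg.trans d2
    | cons b ρ1 =>
      simp only [List.cons_append, List.cons.injEq] at e3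
      obtain ⟨rfl, rfl⟩ := e3
      obtain ⟨v1, v2, i1, i2, f1, f2, f3⟩ :=
        pw_locate (u := v) (k := j' + 1) (s := c :: z ++ ρ1) (c := g) (r := a2) (by simp [e2])
      have d1 : DL P (g :: a2 ++ c :: ρ1) (pw (g :: v2 ++ v1) (i2 + i1 + 1)) := by
        have d0 : DL P (g :: a2 ++ c :: ρ1) (g :: a2 ++ (c :: z ++ ρ1)) :=
          (DL.refl _).append (hd.cons (DL.refl _))
        have e5 : g :: a2 ++ (c :: z ++ ρ1) = pw (g :: v2 ++ v1) (i2 + i1 + 1) := by
          have := pw_rot (g :: v2) v1 (i2 + i1)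
          rw [f2, f3, pw_succ', ← List.append_assoc (pw _ _), ← this, ← f1, pw_add]
          simp
        rwa [e5] at d0
      have d2 := (d1.pw i).append (DL.refl [g])
      rw [pw_mul] at d2
      exact ⟨v1, g, v2, i * (i2 + i1 + 1), f1, Nat.mul_pos hi (by omega), hg.trans d2⟩

end Pool.Agent.P.MP_676b89_lc
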