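import Pool.Agent.P.MP_676b89_lc.Main

/-!
If the dual words are unavoidable then the derivation order is a well-quasi-order.
-/

namespace Pool.Agent.P.MP_676b89_lc

variable {σ : Type*} {P : Set (σ × List σ)}

/-- The word `a x₁ a x₂ a … a`. -/
def blk (a : σ) (xs : List (List σ)) : List σ := a :: (xs.map (· ++ [a])).flatten

theorem blk_nil (a : σ) : blk a [] = [a] := rfl

theorem blk_cons (a : σ) (x : List σ) (xs : List (List σ)) :
    blk a (x :: xs) = (a :: x) ++ blk a xs := by simp [blk]

theorem blk_snoc (a : σ) (x : List σ) (xs : List (List σ)) :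
    blk a (xs ++ [x]) = blk a xs ++ x ++ [a] := by simp [blk]

theorem dl_blk {a : σ} {xs : List (List σ)} (h : ∀ x ∈ xs, DL P [a] (a :: x ++ [a])) :
    DL P [a] (blk a xs) := by
  induction xs with
  | nil => exact DL.refl _
  | cons x xs ih =>
    rw [blk_cons]
    exact (h x (by simp)).trans ((DL.refl _).append (ih fun z hz => h z (by simp [hz])))

theorem blk_mono {a : σ} {xs zs : List (List σ)} (h : List.SublistForall₂ (DL P) xs zs)
    (hz : ∀ x ∈ zs, DL P [a] (a :: x ++ [a])) : DL P (blk a xs) (blk a zs) := by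
  induction h with
  | nil => exact dl_blk hz
  | cons h1 _ ih =>
    rw [blk_cons, blk_cons]
    exact (DL.keep a _ _ h1).append (ih fun z hz' => hz z (by simp [hz']))
  | @cons_right x l1 l2 _ ih =>
    refine (ih fun z hz' => hz z (by simp [hz'])).trans ?_
    have := (hz x (by simp)).cons (DL.refl (l2.map (· ++ [a])).flatten)
    simpa [blk] using this

/-- Shift-reduce parses of bounded depth. -/
def R (P : Set (σ × List σ)) : ℕ → List σ → List σ → Prop
  | 0, u, w => u = [] ∧ w = []
  | n + 1, u, w => (u = [] ∧ w = []) ∨ ∃ a u' xs w', u = a :: u' ∧ w = blk a xs ++ w' ∧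
      (∀ x ∈ xs, DL P [a] (a :: x ++ [a]) ∧ ∃ v, R P n v x) ∧ R P n u' w'

theorem R.nil (n : ℕ) : R P n [] [] := by
  cases n with
  | zero => exact ⟨rfl, rfl⟩
  | succ n => exact Or.inl ⟨rfl, rfl⟩

theorem R.dl {n : ℕ} {u w : List σ} (h : R P n u w) : DL P u w := by
  induction n generalizing u w with
  | zero =>
    obtain ⟨rfl, rfl⟩ := h
    exact DL.nil
  | succ n ih =>
    rcases h with ⟨rfl, rfl⟩ | ⟨a, u', xs, w', rfl, rfl, h1, h2⟩
    · exact DL.nil
    · exact (dl_blk fun x hx => (h1 x hx).1).cons (ih h2)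

theorem R.push {n : ℕ} {u w : List σ} (h : R P n u w) (hu : u.length < n) (b : σ) :
    R P n (u ++ [b]) (w ++ [b]) := by
  induction n generalizing u w with
  | zero => omega
  | succ n ih =>
    rcases h with ⟨rfl, rfl⟩ | ⟨a, u', xs, w', rfl, rfl, h1, h2⟩
    · exact Or.inr ⟨b, [], [], [], rfl, rfl, by simp, R.nil n⟩
    · exact Or.inr ⟨a, u' ++ [b], xs, w' ++ [b], rfl, by simp, h1, ih h2 (by simpa using hu)⟩

theorem R.merge {n : ℕ} {s v w : List σ} {a : σ} (h : R P n (s ++ a :: v) w)
    (hd : DL P [a] (a :: v ++ [a])) : R P n (s ++ [a]) (w ++ [a]) := by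
  induction n generalizing s w with
  | zero => simp [R] at h
  | succ n ih =>
    rcases h with ⟨h, -⟩ | ⟨c, u', xs, w', e, rfl, h1, h2⟩
    · simp at h
    · cases s with
      | nil =>
        simp only [List.nil_append, List.cons.injEq] at e
        obtain ⟨rfl, rfl⟩ := e
        refine Or.inr ⟨a, [], xs ++ [w'], [], rfl, by simp [blk_snoc], fun x hx => ?_, R.nil n⟩
        rcases List.mem_append.mp hx with hx | hx
        · exact h1 x hx
        · rw [List.mem_singleton.mp hx]
          exact ⟨hd.trans ((DL.keep a _ _ h2.dl).append (DL.refl _)), v, h2⟩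
      | cons b s =>
        simp only [List.cons_append, List.cons.injEq] at e
        obtain ⟨rfl, rfl⟩ := e
        exact Or.inr ⟨b, s ++ [a], xs, w' ++ [a], rfl, by simp, h1, ih h2⟩

theorem exists_R {N : ℕ} (hN : ∀ w, DualFree P w → w.length < N) (w : List σ) :
    ∃ u, DualFree P u ∧ R P N u w := by
  induction w using List.reverseRecOn with
  | nil => exact ⟨[], fun s c x t e => by simp at e, R.nil N⟩
  | append_singleton w b ih =>
    obtain ⟨u, h1, h2⟩ := ih
    by_cases h : DualFree P (u ++ [b])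
    · exact ⟨_, h, h2.push (hN u h1) b⟩
    · unfold DualFree at h
      push Not at h
      obtain ⟨s, c, x, t, e, hd⟩ := h
      rcases List.eq_nil_or_concat t with rfl | ⟨t0, b', rfl⟩
      · obtain ⟨rfl, e2⟩ := List.append_inj' e rfl
        simp only [List.cons.injEq, and_true] at e2
        subst e2
        exact ⟨s ++ [b], DualFree.factor (s := []) (t := x) (by simpa using h1), h2.merge hd⟩
      · have e' : u ++ [b] = (s ++ c :: x ++ c :: t0) ++ [b'] := by simp [e]
        obtain ⟨rfl, -⟩ := List.append_inj' e' rfl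
        exact absurd hd (h1 s c x t0 rfl)

instance : IsPreorder (List σ) (DL P) where
  refl := DL.refl
  trans := fun _ _ _ => DL.trans

theorem pwo_R [Finite σ] (n : ℕ) : {w | ∃ u, R P n u w}.PartiallyWellOrderedOn (DL P) := by
  classical
  have := Fintype.ofFinite σ
  induction n with
  | zero =>
    refine (Set.partiallyWellOrderedOn_singleton []).mono ?_
    rintro w ⟨u, -, rfl⟩
    rfl
  | succ n ih =>
    have key : ∀ a : σ, ((fun z : List σ × List (List σ) => blk a z.2 ++ z.1) ''
        ({w | ∃ u, R P n u w} ×ˢ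
          {l | ∀ x, x ∈ l → x ∈ {x | DL P [a] (a :: x ++ [a]) ∧ ∃ v, R P n v x}}
          )).PartiallyWellOrderedOn (DL P) := by
      intro a
      have h0 : {x | DL P [a] (a :: x ++ [a]) ∧ ∃ v, R P n v x}.PartiallyWellOrderedOn (DL P) :=
        ih.mono fun x hx => hx.2
      refine (ih.prod (Set.PartiallyWellOrderedOn.partiallyWellOrderedOn_sublistForall₂ (DL P)
        h0)).image_of_monotone_on ?_
      rintro ⟨w1, x1⟩ - ⟨w2, x2⟩ h2 ⟨g1, g2⟩
      exact (blk_mono g2 fun x hx => (h2.2 x hx).1).append g1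
    refine (((Finset.partiallyWellOrderedOn_bUnion Finset.univ).mpr
      (fun a _ => key a)).insert []).mono ?_
    rintro w ⟨u, ⟨-, rfl⟩ | ⟨a, u', xs, w', -, rfl, h1, h2⟩⟩
    · exact Set.mem_insert _ _
    · refine Set.mem_insert_of_mem _ ?_
      simp only [Set.mem_iUnion]
      exact ⟨a, Finset.mem_univ a, (w', xs), ⟨⟨u', h2⟩, h1⟩, rfl⟩

theorem wqo_of_hleft [Finite σ] (hP : Prop' P) (hH : HLeft P) {n : ℕ}
    (hn : ∀ r ∈ P, r.2.length ≤ n) (f : ℕ → List σ) : ∃ i j, i < j ∧ DL P (f i) (f j) := by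
  obtain ⟨N, hN⟩ := dual_unavoidable hP hH (n := n + 1) (by omega)
    (fun r hr => (hn r hr).trans (by omega))
  exact (pwo_R N).exists_lt (fun i => by
    obtain ⟨u, -, h⟩ := exists_R hN (f i)
    exact ⟨u, h⟩)

/-- One rewriting step. -/
def Step1 (P : Set (σ × List σ)) (x y : List σ) : Prop :=
  ∃ x1 x2 a v, (a, v) ∈ P ∧ x = x1 ++ [a] ++ x2 ∧ y = x1 ++ v ++ x2

theorem rtg_ctx {u w : List σ} (s t : List σ) (h : Relation.ReflTransGen (Step1 P) u w) :
    Relation.ReflTransGen (Step1 P) (s ++ u ++ t) (s ++ w ++ t) := by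
  induction h with
  | refl => exact Relation.ReflTransGen.refl
  | tail _ h ih =>
    obtain ⟨x1, x2, a, v, hp, rfl, rfl⟩ := h
    exact ih.tail ⟨s ++ x1, x2 ++ t, a, v, hp, by simp, by simp⟩

theorem dl_iff {u w : List σ} : DL P u w ↔ Relation.ReflTransGen (Step1 P) u w := by
  constructor
  · intro h
    induction h with
    | nil => exact Relation.ReflTransGen.refl
    | keep a u w _ ih => simpa using rtg_ctx [a] [] ih
    | exp a v u w1 w2 hp _ _ ih1 ih2 =>
      refine Relation.ReflTransGen.head (b := v ++ u) ⟨[], u, a, v, hp, by simp, by simp⟩ ?_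
      have h1 := rtg_ctx [] u ih1
      have h2 := rtg_ctx w1 [] ih2
      simp only [List.nil_append, List.append_nil] at h1 h2
      exact h1.trans h2
  · intro h
    induction h with
    | refl => exact DL.refl _
    | tail _ h ih =>
      obtain ⟨x1, x2, a, v, hp, rfl, rfl⟩ := h
      exact ih.trans ((DL.of_rule hp (DL.refl v)).ctx x1 x2)

end Pool.Agent.P.MP_676b89_lc
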